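import Mathlib

/-! Elementary matrices and congruences over an arbitrary ring. -/

set_option autoImplicit false

namespace Pool.Agent.Cong

open Matrix

/-- The group generated by the elementary matrices `1 + r e_ij`, `i ≠ j`. -/
def elemGroup (n R : Type*) [Fintype n] [DecidableEq n] [Ring R] : Subgroup (Matrix n n R)ˣ :=
  Subgroup.closure {u | ∃ (i j : n) (r : R), i ≠ j ∧ (u : Matrix n n R) = 1 + single i j r}

/-- The additive group generated by the commutators `ab - ba` of a ring. -/
def commGroup (R : Type*) [Ring R] : AddSubgroup R :=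
  AddSubgroup.closure {z | ∃ a b : R, z = a * b - b * a}

section General

variable {T : Type*} [Ring T]

/-- `1 + M z` is congruent modulo `p M` to an element of `G`. -/
def Lin (G : Subgroup Tˣ) (p M : ℕ) (z : T) : Prop :=
  ∃ E ∈ G, ∃ w : T, (E : T) = 1 + M • z + (p * M) • w

theorem Lin.zero {G : Subgroup Tˣ} {p M : ℕ} : Lin G p M 0 :=
  ⟨1, G.one_mem, 0, by simp⟩

theorem Lin.mul {G : Subgroup Tˣ} {p M : ℕ} (z : T) : Lin G p M (p • z) :=
  ⟨1, G.one_mem, -z, by
    simp only [Units.val_one, smul_neg, smul_smul, mul_comm p M, add_neg_cancel_right]⟩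

theorem Lin.add {G : Subgroup Tˣ} {p M : ℕ} (h : p ∣ M) {z z' : T} (hz : Lin G p M z)
    (hz' : Lin G p M z') : Lin G p M (z + z') := by
  obtain ⟨q, rfl⟩ := h
  obtain ⟨E, hE, w, hw⟩ := hz
  obtain ⟨E', hE', w', hw'⟩ := hz'
  refine ⟨E * E', G.mul_mem hE hE', w + w' + q • (z * z') + (p * q) • (z * w') +
    (p * q) • (w * z') + (p * (p * q)) • (w * w'), ?_⟩
  rw [Units.val_mul, hw, hw']
  simp only [mul_add, add_mul, mul_one, one_mul, smul_mul_assoc, mul_smul_comm]
  module

theorem Lin.neg {G : Subgroup Tˣ} {p M : ℕ} (h : p ∣ M) {z : T} (hz : Lin G p M z) :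
    Lin G p M (-z) := by
  obtain ⟨q, rfl⟩ := h
  obtain ⟨E, hE, w, hw⟩ := hz
  have h1 : (E : T) * ((E⁻¹ : Tˣ) : T) = 1 := by simp
  set F : T := ((E⁻¹ : Tˣ) : T) with hF
  have h2 : F = 1 - ((p * q) • z + (p * (p * q)) • w) * F := by
    rw [hw] at h1
    have h3 : F = (1 + (p * q) • z + (p * (p * q)) • w) * F -
      ((p * q) • z + (p * (p * q)) • w) * F := by noncomm_ring
    rw [h1] at h3
    exact h3
  refine ⟨E⁻¹, G.inv_mem hE, -w + q • ((z + p • w) * ((z + p • w) * F)), ?_⟩
  rw [← hF]
  have h3 : F = 1 - ((p * q) • z + (p * (p * q)) • w) *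
      (1 - ((p * q) • z + (p * (p * q)) • w) * F) := by rw [← h2]; exact h2
  conv_lhs => rw [h3]
  simp only [mul_add, add_mul, mul_one, mul_sub, smul_mul_assoc, mul_smul_comm, smul_smul,
    mul_assoc, smul_add]
  module

/-- Correcting a matrix congruent to `1` modulo `M` by an element of `G`. -/
theorem step {G : Subgroup Tˣ} {p M : ℕ} (h : p ∣ M) (A : Tˣ) {Y : T} (hA : (A : T) = 1 + M • Y)
    (hY : Lin G p M Y) : ∃ E ∈ G, ∃ Z : T, ((E * A : Tˣ) : T) = 1 + (p * M) • Z := by
  obtain ⟨E, hE, w, hw⟩ := hY.neg h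
  obtain ⟨q, rfl⟩ := h
  refine ⟨E, hE, w - q • (Y * Y) + (p * q) • (w * Y), ?_⟩
  rw [Units.val_mul, hw, hA]
  simp only [mul_add, add_mul, mul_one, one_mul, smul_mul_assoc, mul_smul_comm,
    smul_neg, neg_mul]
  module

/-- The commutator formula. -/
theorem lin_comm {G : Subgroup Tˣ} {p M : ℕ} (h : p ∣ M) {a b : T} (ha : a * a = 0)
    (hb : b * b = 0) {Ea Ea' Eb Eb' Ec : Tˣ} (hEa : Ea ∈ G) (hEa' : Ea' ∈ G) (hEb : Eb ∈ G)
    (hEb' : Eb' ∈ G) (hEc : Ec ∈ G) (ea : (Ea : T) = 1 + M • a) (ea' : (Ea' : T) = 1 - M • a)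
    (eb : (Eb : T) = 1 + b) (eb' : (Eb' : T) = 1 - b) (ec : (Ec : T) = 1 + M • (b * a * b)) :
    Lin G p M (a * b - b * a) := by
  have h1 : Lin G p M (a * b - b * a + b * a * b) := by
    obtain ⟨q, rfl⟩ := h
    refine ⟨Ea * Eb * Ea' * Eb', G.mul_mem (G.mul_mem (G.mul_mem hEa hEb) hEa') hEb',
      q • (a * b * a * b - a * b * a), ?_⟩
    simp only [Units.val_mul, ea, ea', eb, eb']
    simp only [mul_add, add_mul, mul_one, one_mul, mul_sub, sub_mul, smul_mul_assoc,
      mul_smul_comm, smul_smul, mul_assoc, smul_add, smul_sub, ha, hb, smul_zero, mul_zero, zero_mul]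
    module
  have h2 : Lin G p M (b * a * b) := ⟨Ec, hEc, 0, by rw [ec]; simp⟩
  have h3 := h1.add h (h2.neg h)
  rwa [add_neg_cancel_right] at h3

end General

section Mat

variable {n R : Type*} [Fintype n] [DecidableEq n] [Ring R]

/-- The elementary matrix `1 + r e_ij`. -/
def elem (i j : n) (h : i ≠ j) (r : R) : (Matrix n n R)ˣ where
  val := 1 + single i j r
  inv := 1 - single i j r
  val_inv := by
    have : single i j r * single i j r = (0 : Matrix n n R) :=
      single_mul_single_of_ne r i j i h.symm r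
    simp [mul_sub, add_mul, this]
  inv_val := by
    have : single i j r * single i j r = (0 : Matrix n n R) :=
      single_mul_single_of_ne r i j i h.symm r
    simp [mul_add, sub_mul, this]

theorem elem_mem (i j : n) (h : i ≠ j) (r : R) : elem i j h r ∈ elemGroup n R :=
  Subgroup.subset_closure ⟨i, j, r, h, rfl⟩

theorem elem_neg (i j : n) (h : i ≠ j) (r : R) :
    ((elem i j h (-r) : (Matrix n n R)ˣ) : Matrix n n R) = 1 - single i j r := by
  simp [elem, single_neg, sub_eq_add_neg]

theorem lin_single {p M : ℕ} (i j : n) (h : i ≠ j) (r : R) :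
    Lin (elemGroup n R) p M (single i j r) :=
  ⟨elem i j h (M • r), elem_mem _ _ _ _, 0, by simp [elem, smul_single]⟩

theorem lin_diag {p M : ℕ} (hp : p ∣ M) (i j : n) (h : i ≠ j) (r s : R) :
    Lin (elemGroup n R) p M (single i i (r * s) - single j j (s * r)) := by
  have h1 : single i j r * single j i s = (single i i (r * s) : Matrix n n R) :=
    single_mul_single_same r i j i s
  have h2 : single j i s * single i j r = (single j j (s * r) : Matrix n n R) :=
    single_mul_single_same s j i j r
  rw [← h1, ← h2]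
  refine lin_comm hp (single_mul_single_of_ne r i j i h.symm r)
    (single_mul_single_of_ne s j i j h s)
    (elem_mem i j h (M • r)) (elem_mem i j h (-(M • r))) (elem_mem j i h.symm s)
    (elem_mem j i h.symm (-s)) (elem_mem j i h.symm (M • (s * r * s))) ?_ ?_ rfl
    (elem_neg _ _ _ _) ?_
  · simp [elem, smul_single]
  · rw [elem_neg, smul_single]
  · rw [h2, single_mul_single_same]
    simp [elem, smul_single]

/-- A matrix whose trace is a sum of commutators modulo `p`. -/
theorem lin_of_trace {p M : ℕ} (hp : p ∣ M) [Nontrivial n] (Y : Matrix n n R) (w : R)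
    (hY : Y.trace - p • w ∈ commGroup R) : Lin (elemGroup n R) p M Y := by
  classical
  obtain ⟨i0, j0, hij⟩ := exists_pair_ne n
  -- commutators at `i0`
  have hc : ∀ z ∈ commGroup R, Lin (elemGroup n R) p M (single i0 i0 z) := by
    intro z hz
    induction hz using AddSubgroup.closure_induction with
    | mem z hz =>
      obtain ⟨a, b, rfl⟩ := hz
      have h1 := lin_diag hp i0 j0 hij a b
      have h2 := lin_diag hp i0 j0 hij (b * a) 1
      rw [mul_one, one_mul] at h2
      have h3 := h1.add hp (h2.neg hp)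
      have h4 : (single i0 i0 (a * b) - single j0 j0 (b * a) +
          -(single i0 i0 (b * a) - single j0 j0 (b * a)) : Matrix n n R) =
          single i0 i0 (a * b - b * a) := by
        rw [sub_eq_add_neg (a * b), single_add, ← single_neg]
        abel
      rwa [h4] at h3
    | zero => rw [single_zero]; exact Lin.zero
    | add x y _ _ hx hy => rw [single_add]; exact hx.add hp hy
    | neg x _ hx => rw [← single_neg]; exact hx.neg hp
  have ht : Lin (elemGroup n R) p M (single i0 i0 Y.trace) := by
    have h1 := (hc _ hY).add hp (Lin.mul (G := elemGroup n R) (p := p) (M := M)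
      (single i0 i0 w))
    rwa [smul_single, ← single_add, sub_add_cancel] at h1
  have hs : ∀ {ι : Type _} (s : Finset ι) (f : ι → Matrix n n R),
      (∀ i ∈ s, Lin (elemGroup n R) p M (f i)) → Lin (elemGroup n R) p M (∑ i ∈ s, f i) := by
    intro ι s f hf
    induction s using Finset.induction_on with
    | empty => rw [Finset.sum_empty]; exact Lin.zero
    | insert a s ha ih =>
      rw [Finset.sum_insert ha]
      exact (hf a (Finset.mem_insert_self a s)).add hp
        (ih fun i hi => hf i (Finset.mem_insert_of_mem hi))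
  have hY' : Y = (∑ i, (∑ j, if i = j then single i i (Y i i) - single i0 i0 (Y i i)
      else single i j (Y i j))) + single i0 i0 Y.trace := by
    have h1 : (single i0 i0 Y.trace : Matrix n n R) = ∑ i, single i0 i0 (Y i i) := by
      have := map_sum (singleAddMonoidHom i0 i0 : R →+ Matrix n n R) (fun i => Y i i) Finset.univ
      exact this
    have h2 : ∀ i j : n, (if i = j then single i i (Y i i) - single i0 i0 (Y i i)
        else single i j (Y i j) : Matrix n n R) =
        single i j (Y i j) - (if i = j then single i0 i0 (Y i i) else 0) := by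
      intro i j
      split_ifs with h
      · subst h; rfl
      · rw [sub_zero]
    rw [h1, ← Finset.sum_add_distrib]
    conv_lhs => rw [matrix_eq_sum_single Y]
    refine Finset.sum_congr rfl fun i _ => ?_
    rw [Finset.sum_congr rfl fun j _ => h2 i j, Finset.sum_sub_distrib, Finset.sum_ite_eq]
    simp
  rw [hY']
  refine Lin.add hp (hs _ _ fun i _ => hs _ _ fun j _ => ?_) ht
  split_ifs with hij'
  · by_cases hi : i = i0
    · subst hi
      rw [sub_self]
      exact Lin.zero
    · have := lin_diag hp i i0 hi (Y i i) 1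
      rwa [mul_one, one_mul] at this
  · exact lin_single i j hij' _

/-- **Elementary correction.** -/
theorem elem_step {p M : ℕ} (hp : p ∣ M) [Nontrivial n] (A : (Matrix n n R)ˣ)
    (Y : Matrix n n R) (w : R) (hA : (A : Matrix n n R) = 1 + M • Y)
    (hY : Y.trace - p • w ∈ commGroup R) :
    ∃ E ∈ elemGroup n R, ∃ Z : Matrix n n R,
      ((E * A : (Matrix n n R)ˣ) : Matrix n n R) = 1 + (p * M) • Z :=
  step hp A hA (lin_of_trace hp Y w hY)

/-- **Iteration.** If the trace condition holds for all multiples `M` of `N` and all primes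
`p ∣ N`, then a matrix congruent to `1` modulo `N` is, modulo every power of `N`, a product of
elementary matrices. -/
theorem iterate [Nontrivial n] {N : ℕ}
    (H : ∀ p M : ℕ, p.Prime → p ∣ N → N ∣ M → 0 < M → ∀ (A : (Matrix n n R)ˣ) (Y : Matrix n n R),
      (A : Matrix n n R) = 1 + M • Y → ∃ w : R, Y.trace - p • w ∈ commGroup R)
    (hN : 0 < N) (A : (Matrix n n R)ˣ) (Y : Matrix n n R) (hA : (A : Matrix n n R) = 1 + N • Y)
    (k : ℕ) : ∃ E ∈ elemGroup n R, ∃ Z : Matrix n n R,
      ((E * A : (Matrix n n R)ˣ) : Matrix n n R) = 1 + (N ^ k) • Z := by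
  have key : ∀ d : ℕ, 0 < d → d ∣ N ^ k → ∃ E ∈ elemGroup n R, ∃ Z : Matrix n n R,
      ((E * A : (Matrix n n R)ˣ) : Matrix n n R) = 1 + (N * d) • Z := by
    intro d
    induction d using Nat.strong_induction_on with
    | _ d ih =>
      intro hd hdk
      rcases Nat.lt_or_ge 1 d with h1 | h1
      · have hp : (Nat.minFac d).Prime := Nat.minFac_prime h1.ne'
        obtain ⟨e, he⟩ := Nat.minFac_dvd d
        have he0 : 0 < e := by
          rcases Nat.eq_zero_or_pos e with h | h
          · rw [h, mul_zero] at he; omega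
          · exact h
        have hed : e < d := by
          rw [he]
          exact lt_mul_left he0 hp.one_lt
        obtain ⟨E, hE, Z, hZ⟩ := ih e hed he0 (dvd_trans (Dvd.intro_left _ he.symm) hdk)
        have hpN : Nat.minFac d ∣ N := hp.dvd_of_dvd_pow (dvd_trans (Nat.minFac_dvd d) hdk)
        obtain ⟨w, hw⟩ := H (Nat.minFac d) (N * e) hp hpN (Dvd.intro _ rfl)
          (Nat.mul_pos hN he0) (E * A) Z hZ
        obtain ⟨E', hE', Z', hZ'⟩ := elem_step (dvd_mul_of_dvd_left hpN e) (E * A) Z w hZ hw
        refine ⟨E' * E, (elemGroup n R).mul_mem hE' hE, Z', ?_⟩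
        rw [mul_assoc, hZ']
        congr 2
        conv_rhs => rw [he]
        ring
      · obtain rfl : d = 1 := by omega
        exact ⟨1, (elemGroup n R).one_mem, Y, by rw [one_mul, mul_one, hA]⟩
  obtain ⟨E, hE, Z, hZ⟩ := key (N ^ k) (pow_pos hN k) dvd_rfl
  exact ⟨E, hE, N • Z, by rw [hZ, smul_smul, mul_comm]⟩

end Mat

end Pool.Agent.Cong
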