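import Mathlib
import Pool.Agent.Lib.MP_8f66f0_al_Cong.Elem

/-! Commutators and class sums in an integral group ring. -/

set_option autoImplicit false

namespace Pool.Agent.Cong

open Matrix

variable {Γ : Type*} [Group Γ]

open Classical in
/-- The sum of the coefficients of `x` over the conjugacy class of `c`. -/
noncomputable def classSum (c : Γ) : MonoidAlgebra ℤ Γ →+ ℤ where
  toFun x := x.coeff.sum fun g a => if IsConj c g then a else 0
  map_zero' := by simp
  map_add' x y := by
    rw [MonoidAlgebra.coeff_add, Finsupp.sum_add_index']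
    · intro g; simp
    · intro g a b; split_ifs <;> simp

open Classical in
theorem classSum_single (c g : Γ) (a : ℤ) :
    classSum c (MonoidAlgebra.single g a) = if IsConj c g then a else 0 := by
  change (MonoidAlgebra.single g a : MonoidAlgebra ℤ Γ).coeff.sum
    (fun g a => if IsConj c g then a else 0) = _
  rw [MonoidAlgebra.coeff_single, Finsupp.sum_single_index]
  simp

/-- A chosen element of the conjugacy class. -/
noncomputable def rep (g : Γ) : Γ := (ConjClasses.mk g).out

theorem isConj_rep (g : Γ) : IsConj g (rep g) := by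
  have h : ConjClasses.mk (rep g) = ConjClasses.mk g := Quotient.out_eq' (ConjClasses.mk g)
  exact (ConjClasses.mk_eq_mk_iff_isConj.1 h).symm

theorem rep_eq {g h : Γ} (hgh : IsConj g h) : rep g = rep h := by
  unfold rep
  rw [ConjClasses.mk_eq_mk_iff_isConj.2 hgh]

theorem single_sub_rep_mem (g : Γ) (a : ℤ) :
    (MonoidAlgebra.single g a - MonoidAlgebra.single (rep g) a : MonoidAlgebra ℤ Γ) ∈
      commGroup (MonoidAlgebra ℤ Γ) := by
  obtain ⟨x, hx⟩ := isConj_iff.1 (isConj_rep g).symm
  refine AddSubgroup.subset_closure ⟨MonoidAlgebra.single x 1,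
    MonoidAlgebra.single (rep g * x⁻¹) a, ?_⟩
  rw [MonoidAlgebra.single_mul_single, MonoidAlgebra.single_mul_single, one_mul, mul_one,
    ← mul_assoc, hx, inv_mul_cancel_right]

/-- An element all of whose class sums are divisible by `p` is, modulo `p`, a sum of
commutators. -/
theorem mem_comm_of_classSum {p : ℕ} (z : MonoidAlgebra ℤ Γ)
    (h : ∀ c : Γ, (p : ℤ) ∣ classSum c z) :
    ∃ w : MonoidAlgebra ℤ Γ, z - p • w ∈ commGroup (MonoidAlgebra ℤ Γ) := by
  classical
  -- move every element to the chosen element of its class
  set z' : MonoidAlgebra ℤ Γ := .ofCoeff (Finsupp.mapDomain rep z.coeff) with hz'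
  have h1 : ∀ x : MonoidAlgebra ℤ Γ, x - .ofCoeff (Finsupp.mapDomain rep x.coeff) ∈
      commGroup (MonoidAlgebra ℤ Γ) := by
    intro x
    induction x using MonoidAlgebra.induction_linear with
    | zero => simp [(commGroup (MonoidAlgebra ℤ Γ)).zero_mem]
    | add x y hx hy =>
      rw [MonoidAlgebra.coeff_add, Finsupp.mapDomain_add, MonoidAlgebra.ofCoeff_add,
        add_sub_add_comm]
      exact (commGroup _).add_mem hx hy
    | single g a =>
      rw [MonoidAlgebra.coeff_single, Finsupp.mapDomain_single, MonoidAlgebra.ofCoeff_single]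
      exact single_sub_rep_mem g a
  have h2 : ∀ c : Γ, (p : ℤ) ∣ z'.coeff c := by
    intro c
    by_cases hc : rep c = c
    · have h3 : ∀ x : MonoidAlgebra ℤ Γ, (Finsupp.mapDomain rep x.coeff) c = classSum c x := by
        intro x
        induction x using MonoidAlgebra.induction_linear with
        | zero => simp
        | add x y hx hy =>
          rw [MonoidAlgebra.coeff_add, Finsupp.mapDomain_add, map_add, Finsupp.add_apply, hx, hy]
        | single g a =>
          rw [MonoidAlgebra.coeff_single, Finsupp.mapDomain_single, classSum_single,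
            Finsupp.single_apply]
          have h4 : rep g = c ↔ IsConj c g := by
            constructor
            · rintro rfl; exact (isConj_rep g).symm
            · intro h; rw [← rep_eq h, hc]
          simp only [h4]
      rw [hz', MonoidAlgebra.coeff_ofCoeff, h3]
      exact h c
    · have h3 : z'.coeff c = 0 := by
        rw [hz', MonoidAlgebra.coeff_ofCoeff]
        refine Finsupp.mapDomain_of_notMem_range _ _ ?_
        rintro ⟨g, hg⟩
        apply hc
        rw [← hg, ← rep_eq (isConj_rep g)]
      rw [h3]
      exact dvd_zero _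
  have h3 : ∃ w : MonoidAlgebra ℤ Γ, z' = p • w := by
    refine ⟨.ofCoeff (z'.coeff.mapRange (fun a => a / p) (by simp)), ?_⟩
    ext c
    rw [MonoidAlgebra.coeff_smul_apply, MonoidAlgebra.coeff_ofCoeff, Finsupp.mapRange_apply,
      nsmul_eq_mul]
    exact (Int.mul_ediv_cancel' (h2 c)).symm
  obtain ⟨w, hw⟩ := h3
  exact ⟨w, by rw [← hw]; exact h1 z⟩

end Pool.Agent.Cong
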