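import Mathlib
import Pool.Agent.Lib.MP_8f66f0_al_Cong.GroupRing
import Pool.Agent.Lib.MP_8f66f0_al_FinQ.Abs

/-! The class of the identity: augmentation and determinants. -/

set_option autoImplicit false
set_option linter.unusedSectionVars false

namespace Pool.Agent.Lib.MP_8f66f0_al_Cong

open Pool.Agent.Cong

variable {Γ : Type*} [Group Γ]

/-- The sum of all coefficients. -/
noncomputable def aug (Γ : Type*) [Group Γ] : MonoidAlgebra ℤ Γ →+* ℤ :=
  (MonoidAlgebra.lift ℤ ℤ Γ (1 : Γ →* ℤ)).toRingHom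

lemma aug_single (g : Γ) (a : ℤ) : aug Γ (MonoidAlgebra.single g a) = a := by
  unfold aug
  change MonoidAlgebra.lift ℤ ℤ Γ (1 : Γ →* ℤ) (MonoidAlgebra.single g a) = a
  rw [MonoidAlgebra.lift_single]
  simp

lemma coeff_rep (x : MonoidAlgebra ℤ Γ) (c : Γ) (hc : rep c = c) :
    (MonoidAlgebra.mapDomain rep x).coeff c = classSum c x := by
  classical
  induction x using MonoidAlgebra.induction_linear with
  | zero => rw [MonoidAlgebra.mapDomain_zero, map_zero]; rfl
  | add x y hx hy =>
    rw [MonoidAlgebra.mapDomain_add, MonoidAlgebra.coeff_add, Finsupp.add_apply, hx, hy, map_add]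
  | single g a =>
    rw [MonoidAlgebra.mapDomain_single, classSum_single, MonoidAlgebra.coeff_single,
      Finsupp.single_apply]
    have h4 : rep g = c ↔ IsConj c g := by
      constructor
      · rintro rfl; exact (isConj_rep g).symm
      · intro h; rw [← rep_eq h, hc]
    simp only [h4]

lemma coeff_rep_ne (x : MonoidAlgebra ℤ Γ) (c : Γ) (hc : rep c ≠ c) :
    (MonoidAlgebra.mapDomain rep x).coeff c = 0 := by
  classical
  induction x using MonoidAlgebra.induction_linear with
  | zero => rw [MonoidAlgebra.mapDomain_zero]; rfl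
  | add x y hx hy =>
    rw [MonoidAlgebra.mapDomain_add, MonoidAlgebra.coeff_add, Finsupp.add_apply, hx, hy, add_zero]
  | single g a =>
    rw [MonoidAlgebra.mapDomain_single, MonoidAlgebra.coeff_single, Finsupp.single_apply, if_neg]
    intro e
    apply hc
    rw [← e]
    exact rep_eq (isConj_rep g).symm

lemma aug_mapDomain (z : MonoidAlgebra ℤ Γ) : aug Γ z = aug Γ (MonoidAlgebra.mapDomain rep z) := by
  induction z using MonoidAlgebra.induction_linear with
  | zero => rw [MonoidAlgebra.mapDomain_zero]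
  | add u v hu hv => rw [MonoidAlgebra.mapDomain_add, map_add, map_add, hu, hv]
  | single g a => rw [MonoidAlgebra.mapDomain_single, aug_single, aug_single]

/-- The class sum at `1` from the others. -/
theorem classSum_of_aug {p : ℕ} {x : MonoidAlgebra ℤ Γ} (hx : (p : ℤ) ∣ aug Γ x)
    (h : ∀ c : Γ, c ≠ 1 → (p : ℤ) ∣ classSum c x) : ∀ c : Γ, (p : ℤ) ∣ classSum c x := by
  classical
  intro c
  by_cases hc : c = 1
  swap
  · exact h c hc
  subst hc
  have haug := aug_mapDomain x
  set y := MonoidAlgebra.mapDomain rep x with hy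
  have hrep1 : rep (1 : Γ) = 1 := by
    have := isConj_rep (1 : Γ)
    exact isConj_one_right.mp this
  have hy1 : ∀ c, c ≠ 1 → (p : ℤ) ∣ y.coeff c := by
    intro c hc
    by_cases hr : rep c = c
    · rw [hy, coeff_rep x c hr]
      exact h c hc
    · rw [hy, coeff_rep_ne x c hr]
      exact dvd_zero _
  have hsum : aug Γ y = ∑ g ∈ insert 1 y.coeff.support, y.coeff g := by
    have h1 : ∀ z : MonoidAlgebra ℤ Γ, aug Γ z = z.coeff.sum fun _ a => a := by
      intro z
      induction z using MonoidAlgebra.induction_linear with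
      | zero => rw [map_zero]; rfl
      | add u v hu hv =>
        rw [map_add, hu, hv, MonoidAlgebra.coeff_add, Finsupp.sum_add_index']
        · intro _; rfl
        · intro _ _ _; rfl
      | single g a =>
        rw [aug_single, MonoidAlgebra.coeff_single, Finsupp.sum_single_index rfl]
    rw [h1, Finsupp.sum]
    refine Finset.sum_subset (Finset.subset_insert _ _) fun g _ hg => ?_
    exact Finsupp.notMem_support_iff.mp hg
  rw [← coeff_rep x 1 hrep1, ← hy]
  rw [haug, hsum, ← Finset.add_sum_erase _ _ (Finset.mem_insert_self 1 y.coeff.support)] at hx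
  refine (dvd_add_left ?_).mp hx
  exact Finset.dvd_sum fun g hg => hy1 g (Finset.ne_of_mem_erase hg)

/-- The augmentation of the trace of `Y`, if `1 + M Y` is invertible. -/
theorem dvd_aug_trace {n : Type*} [Fintype n] [DecidableEq n] {p M : ℕ} (hpM : p ∣ M) (hM : 2 < M)
    (A : (Matrix n n (MonoidAlgebra ℤ Γ))ˣ) (Y : Matrix n n (MonoidAlgebra ℤ Γ))
    (hA : (A : Matrix n n (MonoidAlgebra ℤ Γ)) = 1 + M • Y) : (p : ℤ) ∣ aug Γ Y.trace := by
  set φ : Matrix n n (MonoidAlgebra ℤ Γ) →+* Matrix n n ℤ := (aug Γ).mapMatrix with hφ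
  have h1 : φ A = 1 + M • φ Y := by rw [hA, map_add, map_one, map_nsmul]
  have h2 : IsUnit (φ A).det := by
    rw [← Matrix.isUnit_iff_isUnit_det]
    exact (A.isUnit).map φ
  obtain ⟨c, hc⟩ := MP_8f66f0_al_FinQ.det_one_add_nsmul M (φ Y)
  rw [h1] at h2
  have h3 : (φ Y).trace = aug Γ Y.trace := by
    rw [Matrix.trace, Matrix.trace, map_sum]
    rfl
  have hM0 : (M : ℤ) ≠ 0 := by
    intro h
    have : M = 0 := by exact_mod_cast h
    omega
  have h4 : (1 + M • φ Y).det = 1 := by
    rcases Int.isUnit_iff.mp h2 with h | h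
    · exact h
    · exfalso
      rw [h] at hc
      have h5 : (M : ℤ) ∣ 2 := ⟨-((φ Y).trace + M * c), by linear_combination -hc⟩
      have h6 := Int.le_of_dvd (by norm_num) h5
      omega
  rw [h4] at hc
  have h5 : (φ Y).trace = (M : ℤ) * (-c) := by
    apply mul_left_cancel₀ hM0
    linear_combination -hc
  rw [← h3, h5]
  exact Dvd.dvd.mul_right (Int.natCast_dvd_natCast.mpr hpM) _

/-- The trace condition, from the classes different from `1`. -/
theorem exists_comm_of_classes {n : Type*} [Fintype n] [DecidableEq n] {p M : ℕ} (hpM : p ∣ M)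
    (hM : 2 < M) (A : (Matrix n n (MonoidAlgebra ℤ Γ))ˣ) (Y : Matrix n n (MonoidAlgebra ℤ Γ))
    (hA : (A : Matrix n n (MonoidAlgebra ℤ Γ)) = 1 + M • Y)
    (h : ∀ c : Γ, c ≠ 1 → (p : ℤ) ∣ classSum c Y.trace) :
    ∃ w : MonoidAlgebra ℤ Γ, Y.trace - p • w ∈ commGroup (MonoidAlgebra ℤ Γ) :=
  mem_comm_of_classSum _ (classSum_of_aug (dvd_aug_trace hpM hM A Y hA) h)

end Pool.Agent.Lib.MP_8f66f0_al_Cong
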