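import Mathlib
import Pool.Agent.Lib.MP_8f66f0_al_Uni.TauPoly

/-! Divisibility of the class sums of a matrix congruent to one. -/

set_option autoImplicit false
set_option linter.unusedSectionVars false

namespace Pool.Agent.Lib.MP_8f66f0_al_Cong

open Pool.Agent.Lib.MP_8f66f0_al_Dennis Pool.Agent.Lib.MP_8f66f0_al_FinQ
  Pool.Agent.Lib.MP_8f66f0_al_Plus Pool.Agent.Lib.MP_8f66f0_al_Uni

/-- Divisibility by powers of `p` descends to the integers. -/
lemma int_dvd_of_dvd {S : Type*} [CommRing S] [IsDomain S] [CharZero S] {p : ℕ} (hp : p.Prime)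
    (hpS : ¬ IsUnit (p : S)) (k : ℕ) : ∀ t : ℤ, (p : S) ^ k ∣ (t : S) → (p : ℤ) ^ k ∣ t := by
  have hp0 : (p : S) ≠ 0 := Nat.cast_ne_zero.mpr hp.ne_zero
  induction k with
  | zero => intro t _; rw [pow_zero]; exact one_dvd _
  | succ k ih =>
    intro t ht
    have h1 : (p : ℤ) ∣ t := by
      by_contra hnd
      have hcop : IsCoprime (p : ℤ) t :=
        (Prime.coprime_iff_not_dvd (Nat.prime_iff_prime_int.mp hp)).mpr hnd
      obtain ⟨u, v, huv⟩ := hcop
      apply hpS
      have h2 : (p : S) ∣ (t : S) := (dvd_pow_self _ (Nat.succ_ne_zero k)).trans ht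
      have h3 : (p : S) ∣ 1 := by
        have e : (u : S) * (p : S) + (v : S) * (t : S) = 1 := by
          have := congrArg (fun z : ℤ => (z : S)) huv
          push_cast at this
          exact this
        rw [← e]
        exact dvd_add (dvd_mul_left _ _) (h2.mul_left _)
      exact isUnit_of_dvd_one h3
    obtain ⟨t', rfl⟩ := h1
    have h4 : (p : S) ^ k ∣ (t' : S) := by
      obtain ⟨z, hz⟩ := ht
      refine ⟨z, mul_left_cancel₀ hp0 ?_⟩
      rw [pow_succ'] at hz
      push_cast at hz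
      rw [hz, mul_assoc]
    rw [pow_succ']
    exact mul_dvd_mul_left _ (ih t' h4)

variable {Γ : Type*} [Group Γ] {n : ℕ}

/-- The class sums at `c` of the matrices `Z r` are divisible by the expected powers of `p`. -/
def CGood (p : ℕ) (A : Matrix (Fin n) (Fin n) (MonoidAlgebra ℤ Γ)) (c : Γ) : Prop :=
  ∀ (M : ℕ) (Z : ℕ → Matrix (Fin n) (Fin n) (MonoidAlgebra ℤ Γ)), 0 < M →
    (∀ r, A ^ (M * p ^ r) = 1 + (p ^ (r + 2)) • Z r) →
    ∀ r, (p : ℤ) ^ (r + 1) ∣ Pool.Agent.Lib.MP_8f66f0_al_FinQ.mtr (lin (ind ℤ c)) (Z r)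

lemma lin_ind_base {S : Type*} [CommRing S] (c : Γ) (x : MonoidAlgebra ℤ Γ) :
    lin (ind S c) (MonoidAlgebra.mapRingHom Γ (Int.castRingHom S) x) =
      ((lin (ind ℤ c) x : ℤ) : S) := by
  induction x using MonoidAlgebra.induction_linear with
  | zero => simp
  | add x y hx hy => rw [map_add, map_add, map_add, hx, hy, Int.cast_add]
  | single g a =>
    rw [MonoidAlgebra.mapRingHom_single, lin_single, lin_single]
    unfold ind
    split_ifs <;> simp

lemma mtr_baseMat {S : Type*} [CommRing S] (c : Γ)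
    (Y : Matrix (Fin n) (Fin n) (MonoidAlgebra ℤ Γ)) :
    Pool.Agent.Lib.MP_8f66f0_al_FinQ.mtr (lin (ind S c)) (baseMat S Y) =
      ((Pool.Agent.Lib.MP_8f66f0_al_FinQ.mtr (lin (ind ℤ c)) Y : ℤ) : S) := by
  rw [MP_8f66f0_al_FinQ.mtr_apply, MP_8f66f0_al_FinQ.mtr_apply, ← lin_ind_base]
  congr 1
  rw [Matrix.trace, Matrix.trace, map_sum]
  rfl

lemma mapMatS_baseMat {G : Type*} [Group G] {π : G →* Γ} (S : Type*) [CommRing S]
    (Y : Matrix (Fin n) (Fin n) (MonoidAlgebra ℤ G)) :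
    mapMatS S π (baseMat S Y) = baseMat S (mapMat π Y) := by
  ext i j : 1
  exact mapDomain_mapRing S (Y i j)

variable {A B : Matrix (Fin n) (Fin n) (MonoidAlgebra ℤ Γ)}

/-- Classes with a polynomial class cocycle for which the pairing of lifts vanishes are good. -/
theorem cgood_of_poly {S : Type*} [CommRing S] [IsDomain S] [CharZero S] [IsNoetherianRing S]
    {p : ℕ} {c : Γ} (hAB : A * B = 1) (hBA : B * A = 1) (hp : p.Prime)
    (hpS : ¬ IsUnit (p : S))
    {G : Type*} [Group G] {π : G →* Γ} (hπ : Function.Surjective π) (hc1 : c ≠ 1) {J : ℕ}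
    {δ : G → G → S} {D : S} (hD : D ≠ 0) (hδ : IsPoly π c J δ D)
    (h0 : ∀ A' B' : Matrix (Fin n) (Fin n) (MonoidAlgebra ℤ G),
      EntIn ((kerI ℤ π) ^ (J + 1)) (A' * B' - 1) → EntIn ((kerI ℤ π) ^ (J + 1)) (B' * A' - 1) →
      mbil (bil (psiW π c δ)) (baseMat S A') (baseMat S B') = 0) :
    CGood p A c := by
  classical
  intro M Z hM hZ r
  obtain ⟨A', B', hA', hB', hAB', hBA'⟩ := exists_lift hπ hAB hBA (J + 1)
  set K : Ideal (MonoidAlgebra S G) := (kerI S π) ^ (J + 1) with hK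
  set b0 : MonoidAlgebra S G →+ MonoidAlgebra S G →+ S := bil (psiW π c δ) with hb0
  have hv1 : ∀ z ∈ K, ∀ y, b0 z y = 0 := fun z hz y => bil_eq_zero_left hδ.degL hz y
  have hv2 : ∀ z ∈ K, ∀ y, b0 y z = 0 := fun z hz y => bil_eq_zero_right hδ.degR hz y
  set b1 := bbar K b0 hv1 hv2 with hb1
  -- the ring homomorphisms
  let mk : MonoidAlgebra S G →+* MonoidAlgebra S G ⧸ K := Ideal.Quotient.mk K
  have hker : ∀ a ∈ K, MonoidAlgebra.mapDomainRingHom S π a = 0 :=
    fun a ha => Ideal.pow_le_self (Nat.succ_ne_zero J) ha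
  let pb : MonoidAlgebra S G ⧸ K →+* MonoidAlgebra S Γ :=
    Ideal.Quotient.lift K (MonoidAlgebra.mapDomainRingHom S π) hker
  let q : Matrix (Fin n) (Fin n) (MonoidAlgebra S G) →+*
    Matrix (Fin n) (Fin n) (MonoidAlgebra S G ⧸ K) := mk.mapMatrix
  let P : Matrix (Fin n) (Fin n) (MonoidAlgebra S G ⧸ K) →+*
    Matrix (Fin n) (Fin n) (MonoidAlgebra S Γ) := pb.mapMatrix
  have hPq : ∀ Y, P (q Y) = mapMatS S π Y := fun Y => rfl
  have hq0 : ∀ Y, EntIn K Y → q Y = 0 := by
    intro Y hY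
    ext i j : 1
    exact Ideal.Quotient.eq_zero_iff_mem.mpr (hY i j)
  have hmbil : ∀ Y Y', mbil b1 (q Y) (q Y') = mbil b0 Y Y' := by
    intro Y Y'
    rw [mbil_apply, mbil_apply]
    exact Finset.sum_congr rfl fun i _ => Finset.sum_congr rfl fun j _ =>
      bbar_mk K b0 hv1 hv2 _ _
  have hb1c : ∀ x y z, b1 x (y * z) = b1 (x * y) z + b1 (z * x) y := by
    intro x y z
    obtain ⟨x, rfl⟩ := Ideal.Quotient.mk_surjective x
    obtain ⟨y, rfl⟩ := Ideal.Quotient.mk_surjective y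
    obtain ⟨z, rfl⟩ := Ideal.Quotient.mk_surjective z
    rw [← map_mul, ← map_mul, ← map_mul, hb1, bbar_mk, bbar_mk, bbar_mk]
    exact bil_psiW_cocycle hδ x y z
  have hb11 : ∀ y, b1 1 y = D * ((MP_8f66f0_al_FinQ.lin (ind S c)).comp pb.toAddMonoidHom) y := by
    intro y
    obtain ⟨y, rfl⟩ := Ideal.Quotient.mk_surjective y
    rw [← map_one (Ideal.Quotient.mk K), hb1, bbar_mk]
    exact bil_psiW_one hδ y
  -- the matrices
  set a := q (baseMat S A') with ha
  set b := q (baseMat S B') with hb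
  have hone : ∀ (Y W : Matrix (Fin n) (Fin n) (MonoidAlgebra ℤ G)),
      EntIn ((kerI ℤ π) ^ (J + 1)) (Y * W - 1) →
      q (baseMat S Y) * q (baseMat S W) = 1 := by
    intro Y W h
    have h1 := hq0 _ (EntIn.baseMat S h)
    rw [map_sub, map_sub, map_mul, map_mul, map_one, map_one, sub_eq_zero] at h1
    exact h1
  have hab : a * b = 1 := hone A' B' hAB'
  have hba : b * a = 1 := hone B' A' hBA'
  have hPa : P a = baseMat S A := by
    rw [ha, hPq, mapMatS_baseMat, hA']
  have hco := mbil_cocycle (ι := Fin n) (b := b1) hb1c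
  have h00 : mbil b1 b a = 0 := by
    rw [ha, hb, hmbil]
    exact h0 B' A' hBA' hAB'
  -- surjectivity and torsion
  have hPsurj : ∀ Y : Matrix (Fin n) (Fin n) (MonoidAlgebra S Γ),
      ∃ W : Matrix (Fin n) (Fin n) (MonoidAlgebra S G), mapMatS S π W = Y := by
    intro Y
    have hs : Function.Surjective (MonoidAlgebra.mapDomainRingHom S π) := by
      intro x
      induction x using MonoidAlgebra.induction_linear with
      | zero => exact ⟨0, map_zero _⟩
      | add x y hx hy =>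
        obtain ⟨x', rfl⟩ := hx
        obtain ⟨y', rfl⟩ := hy
        exact ⟨x' + y', map_add _ _ _⟩
      | single g s =>
        obtain ⟨g', rfl⟩ := hπ g
        exact ⟨MonoidAlgebra.single g' s, MonoidAlgebra.mapDomain_single⟩
    choose f hf using hs
    refine ⟨Y.map f, ?_⟩
    ext i j : 1
    exact hf _
  have htf : Function.Injective fun x : Matrix (Fin n) (Fin n) (MonoidAlgebra S Γ) => p • x := by
    intro x y hxy
    ext i j : 1
    have h1 : (p • x) i j = (p • y) i j := by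
      change (fun x : Matrix (Fin n) (Fin n) (MonoidAlgebra S Γ) => p • x) x i j =
        (fun x : Matrix (Fin n) (Fin n) (MonoidAlgebra S Γ) => p • x) y i j
      rw [hxy]
    rw [Matrix.smul_apply, Matrix.smul_apply] at h1
    apply MonoidAlgebra.coeff_injective
    ext g
    have h2 : (p • x i j).coeff g = (p • y i j).coeff g := by rw [h1]
    rw [MonoidAlgebra.coeff_smul, MonoidAlgebra.coeff_smul, Finsupp.smul_apply,
      Finsupp.smul_apply, nsmul_eq_mul, nsmul_eq_mul] at h2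
    exact mul_left_cancel₀ (Nat.cast_ne_zero.mpr hp.ne_zero) h2
  have hZ' : ∀ r, P a ^ (M * p ^ r) = 1 + (p ^ (r + 2)) • baseMat S (Z r) := by
    intro r
    rw [hPa, ← map_pow, hZ, map_add, map_one, map_nsmul]
  have hnil : ∃ (m : ℕ) (W : Matrix (Fin n) (Fin n) (MonoidAlgebra S G ⧸ K)),
      (a ^ M - 1) ^ m = p • W := by
    obtain ⟨W0, hW0⟩ := hPsurj (p • baseMat S (Z 0))
    have hz := hZ' 0
    rw [pow_zero, mul_one, zero_add, pow_two, mul_smul, ← hW0, ha, hPq] at hz
    set z := (baseMat S A') ^ M - 1 - p • W0 with hzdef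
    have hz0 : mapMatS S π z = 0 := by
      rw [hzdef, map_sub, map_sub, map_one, map_pow, hz, map_nsmul, add_sub_cancel_left, sub_self]
    have hz1 : EntIn (kerI S π) z := by
      intro i j
      exact congrFun (congrFun hz0 i) j
    have hz2 : ∀ m : ℕ, EntIn ((kerI S π) ^ (m + 1)) (z ^ (m + 1)) := by
      intro m
      induction m with
      | zero => rwa [zero_add, Submodule.pow_one, pow_one]
      | succ m ih =>
        rw [pow_succ z, Submodule.pow_succ]
        exact EntIn.mul ih hz1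
    obtain ⟨W, hW⟩ := exists_pow_add p (q W0) (q z) (J + 1)
    refine ⟨J + 1, W, ?_⟩
    rw [← map_pow q z, hq0 _ (hz2 J), zero_add] at hW
    rw [← hW, ha, ← map_pow, ← map_nsmul, ← map_add, hzdef, add_sub_cancel, map_sub, map_one]
  have hτ : ∀ y, mbil b1 1 y =
      D * MP_8f66f0_al_FinQ.mtr (MP_8f66f0_al_FinQ.lin (ind S c)) (P y) := by
    intro y
    rw [mbil_one' hb11, MP_8f66f0_al_FinQ.mtr_apply, MP_8f66f0_al_FinQ.mtr_apply,
      AddMonoidHom.comp_apply]
    congr 2
    change pb (Matrix.trace y) = Matrix.trace (P y)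
    rw [Matrix.trace, Matrix.trace, map_sum]
    rfl
  have hτ1 : MP_8f66f0_al_FinQ.mtr (MP_8f66f0_al_FinQ.lin (ind S c))
      (1 : Matrix (Fin n) (Fin n) (MonoidAlgebra S Γ)) = 0 := by
    rw [MP_8f66f0_al_FinQ.mtr_apply, Matrix.trace_one, ← nsmul_one, map_nsmul,
      MonoidAlgebra.one_def, lin_single]
    have hc : ¬ IsConj c 1 := fun h => hc1 (isConj_one_left.mp h)
    unfold ind
    rw [if_neg hc, mul_zero, smul_zero]
  have h1 := tau_dvd_abs hp P hD hco hτ hτ1 hba hab h00 htf hnil hZ' r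
  rw [mtr_baseMat] at h1
  exact int_dvd_of_dvd hp hpS (r + 1) _ h1

end Pool.Agent.Lib.MP_8f66f0_al_Cong
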