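import Mathlib
import Pool.Agent.Lib.MP_8f66f0_al_ChernS.Split
import Pool.Agent.Lib.MP_8f66f0_al_Cong.Aug

/-! From the class sums over the finitely generated subgroups to elementary factorizations. -/

set_option autoImplicit false
set_option linter.unusedSectionVars false

namespace Pool.Agent.Lib.MP_8f66f0_al_Cong

open Pool.Agent.Cong Pool.Agent.Lib.MP_8f66f0_al_ChernS

/-- The class sums of the trace of `Y` are divisible by `p` at all classes `≠ 1`, for all
invertible matrices `1 + M Y` with `N ∣ M` and all primes `p ∣ N`. -/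
def SumsDvd (N n : ℕ) (Γ : Type*) [Group Γ] : Prop :=
  ∀ p M : ℕ, p.Prime → p ∣ N → N ∣ M → 0 < M →
    ∀ (A B Y : Matrix (Fin n) (Fin n) (MonoidAlgebra ℤ Γ)), A * B = 1 → B * A = 1 →
      A = 1 + M • Y → ∀ c : Γ, c ≠ 1 → (p : ℤ) ∣ classSum c Y.trace

section transfer

variable {Γ Δ : Type*} [Group Γ] [Group Δ]

lemma map_commGroup {R S : Type*} [Ring R] [Ring S] (φ : R →+* S) {z : R}
    (hz : z ∈ commGroup R) : φ z ∈ commGroup S := by
  induction hz using AddSubgroup.closure_induction with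
  | mem z hz =>
    obtain ⟨a, b, rfl⟩ := hz
    refine AddSubgroup.subset_closure ⟨φ a, φ b, ?_⟩
    rw [map_sub, map_mul, map_mul]
  | zero => rw [map_zero]; exact (commGroup S).zero_mem
  | add x y _ _ hx hy => rw [map_add]; exact (commGroup S).add_mem hx hy
  | neg x _ hx => rw [map_neg]; exact (commGroup S).neg_mem hx

/-- Restriction of three matrices to a finitely generated subgroup. -/
theorem exists_restrict3 {n : ℕ} (A B Y : Matrix (Fin n) (Fin n) (MonoidAlgebra ℤ Γ)) {M : ℕ}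
    (hAB : A * B = 1) (hBA : B * A = 1) (hA : A = 1 + M • Y) :
    ∃ (H : Subgroup Γ) (A' B' Y' : Matrix (Fin n) (Fin n) (MonoidAlgebra ℤ H)), H.FG ∧
      A' * B' = 1 ∧ B' * A' = 1 ∧ A' = 1 + M • Y' ∧
      (MonoidAlgebra.mapDomainRingHom ℤ H.subtype).mapMatrix Y' = Y := by
  classical
  let T : Finset Γ := (Finset.univ.biUnion fun i => Finset.univ.biUnion fun j =>
    (A i j).coeff.support ∪ (B i j).coeff.support ∪ (Y i j).coeff.support)
  have hTA : ∀ i j, ∀ g ∈ (A i j).coeff.support, g ∈ T := fun i j g hg =>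
    Finset.mem_biUnion.2 ⟨i, Finset.mem_univ _, Finset.mem_biUnion.2 ⟨j, Finset.mem_univ _,
      Finset.mem_union_left _ (Finset.mem_union_left _ hg)⟩⟩
  have hTB : ∀ i j, ∀ g ∈ (B i j).coeff.support, g ∈ T := fun i j g hg =>
    Finset.mem_biUnion.2 ⟨i, Finset.mem_univ _, Finset.mem_biUnion.2 ⟨j, Finset.mem_univ _,
      Finset.mem_union_left _ (Finset.mem_union_right _ hg)⟩⟩
  have hTY : ∀ i j, ∀ g ∈ (Y i j).coeff.support, g ∈ T := fun i j g hg =>
    Finset.mem_biUnion.2 ⟨i, Finset.mem_univ _, Finset.mem_biUnion.2 ⟨j, Finset.mem_univ _,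
      Finset.mem_union_right _ hg⟩⟩
  let H : Subgroup Γ := Subgroup.closure (T : Set Γ)
  have hTH : ∀ g ∈ T, g ∈ H := fun g hg => Subgroup.subset_closure hg
  choose A' hA' using fun i j => split_exists_res H (A i j) (fun g hg => hTH g (hTA i j g hg))
  choose B' hB' using fun i j => split_exists_res H (B i j) (fun g hg => hTH g (hTB i j g hg))
  choose Y' hY' using fun i j => split_exists_res H (Y i j) (fun g hg => hTH g (hTY i j g hg))
  set φ := MonoidAlgebra.mapDomainRingHom ℤ H.subtype with hφ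
  have hφinj : Function.Injective φ := MonoidAlgebra.mapDomain_injective Subtype.val_injective
  have hAm : φ.mapMatrix (Matrix.of A') = A := by
    refine Matrix.ext fun i j => ?_
    exact hA' i j
  have hBm : φ.mapMatrix (Matrix.of B') = B := by
    refine Matrix.ext fun i j => ?_
    exact hB' i j
  have hYm : φ.mapMatrix (Matrix.of Y') = Y := by
    refine Matrix.ext fun i j => ?_
    exact hY' i j
  have hminj : Function.Injective (φ.mapMatrix : Matrix (Fin n) (Fin n) (MonoidAlgebra ℤ H) →+* _) :=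
    Matrix.map_injective hφinj
  refine ⟨H, Matrix.of A', Matrix.of B', Matrix.of Y', ⟨T, rfl⟩, ?_, ?_, ?_, hYm⟩
  · apply hminj
    rw [map_mul, map_one, hAm, hBm, hAB]
  · apply hminj
    rw [map_mul, map_one, hAm, hBm, hBA]
  · apply hminj
    rw [map_add, map_one, map_nsmul, hAm, hYm, hA]

end transfer

section main

variable {Γ : Type*} [Group Γ]

/-- The trace condition for the group from the class sums over its finitely generated subgroups. -/
theorem exists_comm_of_local {N n : ℕ} (hN : 2 < N) (h : ∀ H : Subgroup Γ, H.FG → SumsDvd N n H)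
    {p M : ℕ} (hp : p.Prime) (hpN : p ∣ N) (hNM : N ∣ M) (hM : 0 < M)
    (A : (Matrix (Fin n) (Fin n) (MonoidAlgebra ℤ Γ))ˣ)
    (Y : Matrix (Fin n) (Fin n) (MonoidAlgebra ℤ Γ))
    (hA : (A : Matrix (Fin n) (Fin n) (MonoidAlgebra ℤ Γ)) = 1 + M • Y) :
    ∃ w : MonoidAlgebra ℤ Γ, Y.trace - p • w ∈ commGroup (MonoidAlgebra ℤ Γ) := by
  obtain ⟨H, A', B', Y', hH, hAB', hBA', hA', hY'⟩ :=
    exists_restrict3 (A : Matrix (Fin n) (Fin n) (MonoidAlgebra ℤ Γ))
      ((A⁻¹ : (Matrix (Fin n) (Fin n) (MonoidAlgebra ℤ Γ))ˣ)) Y (by simp) (by simp) hA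
  have hM2 : 2 < M := lt_of_lt_of_le hN (Nat.le_of_dvd hM hNM)
  obtain ⟨w, hw⟩ := exists_comm_of_classes (Γ := H) (hpN.trans hNM) hM2
    ⟨A', B', hAB', hBA'⟩ Y' hA' (h H hH p M hp hpN hNM hM A' B' Y' hAB' hBA' hA')
  refine ⟨MonoidAlgebra.mapDomainRingHom ℤ H.subtype w, ?_⟩
  have h1 := map_commGroup (MonoidAlgebra.mapDomainRingHom ℤ H.subtype) hw
  rw [map_sub, map_nsmul] at h1
  have h2 : (MonoidAlgebra.mapDomainRingHom ℤ H.subtype) Y'.trace = Y.trace := by
    rw [← hY', Matrix.trace, Matrix.trace, map_sum]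
    rfl
  rwa [h2] at h1

/-- **The congruence theorem.** -/
theorem cong_of_local {N n : ℕ} (hN : 2 < N) (hn : 2 ≤ n)
    (h : ∀ H : Subgroup Γ, H.FG → SumsDvd N n H)
    (A : (Matrix (Fin n) (Fin n) (MonoidAlgebra ℤ Γ))ˣ)
    (Y : Matrix (Fin n) (Fin n) (MonoidAlgebra ℤ Γ))
    (hA : (A : Matrix (Fin n) (Fin n) (MonoidAlgebra ℤ Γ)) = 1 + N • Y) (k : ℕ) :
    ∃ E ∈ elemGroup (Fin n) (MonoidAlgebra ℤ Γ), ∃ Z : Matrix (Fin n) (Fin n) (MonoidAlgebra ℤ Γ),
      ((E * A : (Matrix (Fin n) (Fin n) (MonoidAlgebra ℤ Γ))ˣ) :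
        Matrix (Fin n) (Fin n) (MonoidAlgebra ℤ Γ)) = 1 + (N ^ k) • Z := by
  have : Nontrivial (Fin n) := Fin.nontrivial_iff_two_le.mpr hn
  exact iterate (fun p M hp hpN hNM hM A Y hA =>
    exists_comm_of_local hN h hp hpN hNM hM A Y hA) (by omega) A Y hA k

end main

end Pool.Agent.Lib.MP_8f66f0_al_Cong
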