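import Mathlib

/-! Powers of elements congruent to `1`. -/

set_option autoImplicit false

namespace Pool.Agent.Cong

theorem dvd_choose {p : ℕ} (hp : p.Prime) {M : ℕ} (hpM : p ∣ M) (h4 : p = 2 → 4 ∣ M) {j : ℕ}
    (hj : 2 ≤ j) (hjp : j ≤ p) : p * (p * M) ∣ M ^ j * p.choose j := by
  rcases Nat.lt_or_ge j p with h | h
  · have h1 : p ∣ p.choose j := hp.dvd_choose_self (by omega) h
    have h2 : p * M ∣ M ^ j := by
      obtain ⟨i, rfl⟩ := Nat.exists_eq_add_of_le hj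
      rw [pow_add, pow_two]
      exact dvd_mul_of_dvd_left (mul_dvd_mul hpM dvd_rfl) _
    rw [mul_comm p (p * M)]
    exact mul_dvd_mul h2 h1
  · obtain rfl : j = p := le_antisymm hjp h
    rw [Nat.choose_self, mul_one]
    rcases Nat.lt_or_ge 2 j with h3 | h3
    · obtain ⟨i, rfl⟩ := Nat.exists_eq_add_of_lt h3
      rw [show 2 + i + 1 = (i + 1 + 1) + 1 by ring, pow_succ, pow_succ, ← mul_assoc]
      refine mul_dvd_mul ?_ dvd_rfl
      refine mul_dvd_mul ?_ ?_
      · have : 2 + i + 1 ∣ M ^ (i + 1) := dvd_pow hpM (by omega)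
        rwa [show 2 + i + 1 = i + 1 + 1 + 1 by ring] at this
      · rwa [show 2 + i + 1 = i + 1 + 1 + 1 by ring] at hpM
    · obtain rfl : j = 2 := by omega
      have := h4 rfl
      rw [← mul_assoc, pow_two]
      exact mul_dvd_mul this dvd_rfl

variable {T : Type*} [Ring T]

theorem pow_cong {p : ℕ} (hp : p.Prime) {M : ℕ} (hpM : p ∣ M) (h4 : p = 2 → 4 ∣ M) (X Y : T)
    (hX : X = 1 + M • Y) : ∃ W : T, X ^ p = 1 + (p * M) • (Y + p • W) := by
  have h1 : X = M • Y + 1 := by rw [hX, add_comm]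
  obtain ⟨r, hr⟩ : ∃ r, p = r + 2 := ⟨p - 2, by have := hp.two_le; omega⟩
  have h2 : ∀ m ∈ Finset.range (r + 1), ∃ Z : T,
      (M • Y) ^ (m + 2) * 1 ^ (p - (m + 2)) * (p.choose (m + 2) : T) = (p * M) • (p • Z) := by
    intro m hm
    have hm' : m + 2 ≤ p := by rw [Finset.mem_range] at hm; omega
    obtain ⟨q, hq⟩ := dvd_choose hp hpM h4 (j := m + 2) (by omega) hm'
    refine ⟨q • Y ^ (m + 2), ?_⟩
    rw [one_pow, mul_one, smul_pow, ← nsmul_eq_mul', smul_smul, smul_smul, smul_smul,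
      mul_comm (p.choose (m + 2)), hq]
    congr 1
    ring
  choose! Z hZ using h2
  refine ⟨∑ m ∈ Finset.range (r + 1), Z m, ?_⟩
  rw [h1, (Commute.one_right (M • Y)).add_pow, show p + 1 = (r + 1) + 1 + 1 by omega,
    Finset.sum_range_succ', Finset.sum_range_succ', Finset.sum_congr rfl hZ,
    ← Finset.smul_sum, ← Finset.smul_sum]
  simp only [zero_add, pow_one, one_pow, mul_one, Nat.choose_one_right, pow_zero,
    Nat.choose_zero_right, Nat.cast_one, smul_add, ← nsmul_eq_mul', smul_smul]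
  abel

theorem pow_cong_iter {p : ℕ} (hp : p.Prime) {M : ℕ} (hpM : p ∣ M) (h4 : p = 2 → 4 ∣ M)
    (X Y : T) (hX : X = 1 + M • Y) (s : ℕ) :
    ∃ W : T, X ^ p ^ s = 1 + (p ^ s * M) • (Y + p • W) := by
  induction s with
  | zero => exact ⟨0, by rw [pow_zero, pow_one, one_mul, smul_zero, add_zero, hX]⟩
  | succ s ih =>
    obtain ⟨W, hW⟩ := ih
    obtain ⟨W', hW'⟩ := pow_cong hp (dvd_mul_of_dvd_right hpM (p ^ s))
      (fun h => dvd_mul_of_dvd_right (h4 h) _) _ _ hW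
    refine ⟨W + W', ?_⟩
    rw [pow_succ, pow_mul, hW', smul_add p W W', ← add_assoc, mul_comm (p ^ s) p, mul_assoc]

end Pool.Agent.Cong
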