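import Mathlib
import Pool.Agent.Lib.MP_8f66f0_al_Cong.GroupRing
import Pool.Agent.Lib.MP_8f66f0_al_Cong.Pow
import Pool.Agent.Lib.MP_8f66f0_al_Stab.StableZero

/-! The class sums of the first digit of a matrix congruent to `1`, from mixed cocycles. -/

set_option autoImplicit false
set_option linter.unusedSectionVars false

namespace Pool.Agent.Cong

open Pool.Agent.Lib.MP_8f66f0_al_FinQ Pool.Agent.Lib.MP_8f66f0_al_Uni
  Pool.Agent.Lib.MP_8f66f0_al_ChernS Pool.Agent.Lib.MP_8f66f0_al_Mixed
  Pool.Agent.Lib.MP_8f66f0_al_Stab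

variable {G : Type*} [Group G]

section verts

theorem verts_append (l l' : List G) :
    verts (l ++ l') = verts l ++ (verts l').map (l.prod * ·) := by
  unfold verts
  rw [List.length_append, List.range_add, List.map_append, List.map_map, List.map_map]
  congr 1
  · refine List.map_congr_left fun j hj => ?_
    rw [List.mem_range] at hj
    rw [List.take_append_of_le_length hj.le]
  · refine List.map_congr_left fun j hj => ?_
    simp only [Function.comp_apply]
    rw [List.take_length_add_append, List.prod_append]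

theorem verts_cons (g : G) (l : List G) : verts (g :: l) = 1 :: (verts l).map (g * ·) := by
  have h := verts_append [g] l
  rw [List.singleton_append] at h
  rw [h]
  simp [verts]

theorem verts_pair (h g : G) : verts [h, g] = [1, h] := by
  rw [verts_cons, verts_cons]
  simp [verts]

theorem eq_zero_of_one_mem {k : ℕ} {b : G → List G → ℤ} (hb : IsMixed k b) (s t : List G)
    (x c : G) : b c (verts (s ++ 1 :: (t ++ [x]))) = 0 := by
  obtain ⟨y, t', ht⟩ : ∃ y t', t ++ [x] = y :: t' := by
    cases t with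
    | nil => exact ⟨x, [], rfl⟩
    | cons y t => exact ⟨y, t ++ [x], rfl⟩
  rw [ht, verts_append, verts_cons, verts_cons]
  simp only [List.map_cons, one_mul, mul_one]
  exact hb.diag c _ _ _

end verts

section weight

open Classical in
/-- The number of letters different from `1`. -/
noncomputable def wt (w : List G) : ℕ := w.countP fun g => decide (g ≠ 1)

theorem wt_append (l l' : List G) : wt (l ++ l') = wt l + wt l' := by
  unfold wt
  exact List.countP_append

theorem wt_eq_length {l : List G} (h : ∀ x ∈ l, x ≠ 1) : wt l = l.length := by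
  unfold wt
  rw [List.countP_eq_length]
  intro x hx
  simpa using h x hx

/-- The additive monoid generated by the words with coefficients divisible by `M ^ wt`. -/
noncomputable def filt (M : ℤ) : AddSubmonoid (MonoidAlgebra ℤ (FreeMonoid G)) :=
  AddSubmonoid.closure {x | ∃ (w : FreeMonoid G) (a : ℤ), M ^ wt w.toList ∣ a ∧
    x = MonoidAlgebra.single w a}

theorem mul_mem_filt {M : ℤ} {x y : MonoidAlgebra ℤ (FreeMonoid G)} (hx : x ∈ filt M)
    (hy : y ∈ filt M) : x * y ∈ filt M := by
  unfold filt at hx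
  refine AddSubmonoid.closure_induction (motive := fun x _ => x * y ∈ filt M) ?_ ?_ ?_ hx
  · rintro _ ⟨w, a, hw, rfl⟩
    unfold filt at hy
    refine AddSubmonoid.closure_induction
      (motive := fun y _ => MonoidAlgebra.single w a * y ∈ filt M) ?_ ?_ ?_ hy
    · rintro _ ⟨v, b, hv, rfl⟩
      rw [MonoidAlgebra.single_mul_single]
      refine AddSubmonoid.subset_closure ⟨w * v, a * b, ?_, rfl⟩
      rw [FreeMonoid.toList_mul, wt_append, pow_add]
      exact mul_dvd_mul hw hv
    · rw [mul_zero]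
      exact AddSubmonoid.zero_mem _
    · intro y z _ _ h1 h2
      rw [mul_add]
      exact AddSubmonoid.add_mem _ h1 h2
  · rw [zero_mul]
    exact AddSubmonoid.zero_mem _
  · intro y z _ _ h1 h2
    rw [add_mul]
    exact AddSubmonoid.add_mem _ h1 h2

theorem letter_mem_filt {M : ℤ} (x : MonoidAlgebra ℤ G) (hx : ∀ g, g ≠ 1 → M ∣ x.coeff g) :
    letter ℤ G x ∈ filt M := by
  have h1 : x = ∑ g ∈ x.coeff.support, MonoidAlgebra.single g (x.coeff g) :=
    (MonoidAlgebra.sum_coeff_single x).symm
  rw [h1, map_sum]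
  refine AddSubmonoid.sum_mem _ fun g _ => ?_
  rw [letter_single]
  refine AddSubmonoid.subset_closure ⟨FreeMonoid.of g, x.coeff g, ?_, rfl⟩
  rw [FreeMonoid.toList_of]
  by_cases hg : g = 1
  · have : wt [g] = 0 := by simp [wt, hg]
    rw [this, pow_zero]
    exact one_dvd _
  · rw [wt_eq_length (by simpa using hg), List.length_singleton, pow_one]
    exact hx g hg

theorem one_mem_filt {M : ℤ} : (1 : MonoidAlgebra ℤ (FreeMonoid G)) ∈ filt M := by
  rw [MonoidAlgebra.one_def]
  refine AddSubmonoid.subset_closure ⟨1, 1, ?_, rfl⟩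
  rw [FreeMonoid.toList_one]
  simp [wt]

theorem pow_mem_filt {M : ℤ} {n : ℕ} (A B : Matrix (Fin n) (Fin n) (MonoidAlgebra ℤ G))
    (hA : ∀ i j g, g ≠ 1 → M ∣ (A i j).coeff g) (hB : ∀ i j g, g ≠ 1 → M ∣ (B i j).coeff g)
    (Q : ℕ) : ∀ i j, ((letM B * letM A) ^ Q) i j ∈ filt (G := G) M := by
  induction Q with
  | zero =>
    intro i j
    rw [pow_zero, Matrix.one_apply]
    split_ifs
    · exact one_mem_filt
    · exact AddSubmonoid.zero_mem _
  | succ Q ih =>
    intro i j
    rw [pow_succ, Matrix.mul_apply]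
    refine AddSubmonoid.sum_mem _ fun l _ => mul_mem_filt (ih i l) ?_
    rw [Matrix.mul_apply]
    exact AddSubmonoid.sum_mem _ fun l' _ =>
      mul_mem_filt (letter_mem_filt _ (hB l l')) (letter_mem_filt _ (hA l' j))

theorem lin_dvd_of_mem_filt {M N : ℤ} {F : FreeMonoid G → ℤ}
    (hF : ∀ w : FreeMonoid G, N ∣ M ^ wt w.toList * F w)
    {x : MonoidAlgebra ℤ (FreeMonoid G)} (hx : x ∈ filt M) :
    N ∣ Pool.Agent.Lib.MP_8f66f0_al_FinQ.lin F x := by
  unfold filt at hx
  refine AddSubmonoid.closure_induction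
    (motive := fun x _ => N ∣ Pool.Agent.Lib.MP_8f66f0_al_FinQ.lin F x) ?_ ?_ ?_ hx
  · rintro _ ⟨w, a, ⟨a', rfl⟩, rfl⟩
    rw [Pool.Agent.Lib.MP_8f66f0_al_FinQ.lin_single, mul_right_comm]
    exact dvd_mul_of_dvd_left (hF w) _
  · rw [map_zero]
    exact dvd_zero _
  · intro x y _ _ h1 h2
    rw [map_add]
    exact dvd_add h1 h2

/-- The higher terms. -/
theorem chern_dvd {k m n : ℕ} {b : G → List G → ℤ} (hb : IsMixed k b) {M : ℤ}
    (A B : Matrix (Fin n) (Fin n) (MonoidAlgebra ℤ G))
    (hA : ∀ i j g, g ≠ 1 → M ∣ (A i j).coeff g) (hB : ∀ i j g, g ≠ 1 → M ∣ (B i j).coeff g) :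
    M ^ (2 * m + 1) ∣ chern m A B b := by
  have h1 : chern m A B b = wsum B A (m + 1) fun w =>
      if w.length = 2 * (m + 1) then b w.prod (verts w) else 0 := by
    unfold chern
    refine wsum_congr B A (m + 1) fun w hw => ?_
    rw [if_pos hw]
  rw [h1]
  unfold wsum
  refine lin_dvd_of_mem_filt (G := G) (M := M) ?_ ?_
  · intro w
    beta_reduce
    split_ifs with hw
    · by_cases h0 : ∃ x ∈ w.toList.dropLast, x = 1
      · obtain ⟨x, hx, rfl⟩ := h0
        obtain ⟨s, t, hst⟩ := List.append_of_mem hx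
        have hne : w.toList ≠ [] := by
          intro h
          rw [h] at hw
          simp at hw
        have h2 : w.toList = s ++ 1 :: (t ++ [w.toList.getLast hne]) := by
          conv_lhs => rw [← List.dropLast_append_getLast hne, hst]
          simp
        have h3 : b w.toList.prod (verts w.toList) = 0 := by
          conv_lhs => rw [show verts w.toList =
            verts (s ++ 1 :: (t ++ [w.toList.getLast hne])) by rw [← h2]]
          exact eq_zero_of_one_mem hb s t _ _
        rw [h3, mul_zero]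
        exact dvd_zero _
      · push Not at h0
        refine dvd_mul_of_dvd_left (pow_dvd_pow M ?_) _
        have hne : w.toList ≠ [] := by
          intro h
          rw [h] at hw
          simp at hw
        have h2 : wt w.toList = wt (w.toList.dropLast ++ [w.toList.getLast hne]) := by
          rw [List.dropLast_append_getLast hne]
        rw [h2, wt_append, wt_eq_length h0, List.length_dropLast, hw]
        omega
    · rw [mul_zero]
      exact dvd_zero _
  · rw [Matrix.trace]
    refine AddSubmonoid.sum_mem _ fun i _ => ?_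
    rw [Matrix.diag_apply]
    exact pow_mem_filt A B hA hB (m + 1) i i

end weight

section first

variable {k n : ℕ} {b : G → List G → ℤ}

theorem val_pair (hb : IsMixed k b) (h : G) : b h [1, h] = b h [] := by
  have h1 := hb.alternating h [] 1 h []
  have h2 := hb.mixed h 1 [1]
  have h3 : b h [1, 1] = 0 := hb.diag h [] 1 []
  simp only [List.nil_append, mul_one, List.length_singleton, Finset.range_one,
    Finset.sum_singleton, pow_zero, one_mul, List.eraseIdx_zero, List.tail_cons] at h1 h2
  rw [h1, h2, h3]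
  ring

/-- The bilinear form of the lowest term. -/
noncomputable def bf (b : G → List G → ℤ) (x y : MonoidAlgebra ℤ G) : ℤ :=
  lin (fun w : FreeMonoid G => b w.toList.prod (verts w.toList)) (letter ℤ G x * letter ℤ G y)

theorem bf_add_left (x x' y : MonoidAlgebra ℤ G) : bf b (x + x') y = bf b x y + bf b x' y := by
  unfold bf
  rw [map_add, add_mul, map_add]

theorem bf_add_right (x y y' : MonoidAlgebra ℤ G) : bf b x (y + y') = bf b x y + bf b x y' := by
  unfold bf
  rw [map_add, mul_add, map_add]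

theorem bf_smul_left (M : ℕ) (x y : MonoidAlgebra ℤ G) : bf b (M • x) y = M * bf b x y := by
  unfold bf
  rw [map_nsmul, smul_mul_assoc, map_nsmul, nsmul_eq_mul]

theorem bf_smul_right (M : ℕ) (x y : MonoidAlgebra ℤ G) : bf b x (M • y) = M * bf b x y := by
  unfold bf
  rw [map_nsmul, mul_smul_comm, map_nsmul, nsmul_eq_mul]

theorem bf_zero_left (y : MonoidAlgebra ℤ G) : bf b 0 y = 0 := by
  unfold bf
  rw [map_zero, zero_mul, map_zero]

theorem bf_zero_right (y : MonoidAlgebra ℤ G) : bf b y 0 = 0 := by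
  unfold bf
  rw [map_zero, mul_zero, map_zero]

theorem bf_single (h g : G) (x y : ℤ) :
    bf b (MonoidAlgebra.single h x) (MonoidAlgebra.single g y) = x * y * b (h * g) [1, h] := by
  unfold bf
  rw [letter_single, letter_single, MonoidAlgebra.single_mul_single,
    Pool.Agent.Lib.MP_8f66f0_al_FinQ.lin_single, FreeMonoid.toList_mul, FreeMonoid.toList_of, FreeMonoid.toList_of, List.singleton_append,
    verts_pair]
  simp

theorem bf_one_left (hb : IsMixed k b) (y : MonoidAlgebra ℤ G) : bf b 1 y = 0 := by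
  induction y using MonoidAlgebra.induction_linear with
  | zero => exact bf_zero_right _
  | add y z hy hz => rw [bf_add_right, hy, hz, add_zero]
  | single g a =>
    rw [MonoidAlgebra.one_def, bf_single]
    have : b (1 * g) [1, 1] = 0 := hb.diag _ [] 1 []
    rw [this, mul_zero]

theorem bf_one_right (hb : IsMixed k b) (c : G) (hsupp : ∀ c' u, ¬ IsConj c c' → b c' u = 0)
    (x : MonoidAlgebra ℤ G) : bf b x 1 = b c [] * classSum c x := by
  induction x using MonoidAlgebra.induction_linear with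
  | zero => rw [bf_zero_left, map_zero, mul_zero]
  | add y z hy hz => rw [bf_add_left, hy, hz, map_add, mul_add]
  | single g a =>
    rw [MonoidAlgebra.one_def, bf_single, classSum_single, mul_one, mul_one, val_pair hb]
    split_ifs with h
    · rw [conj_nil hb h, mul_comm]
    · rw [hsupp g [] h, mul_zero, mul_zero]

theorem chern_zero_eq (A B : Matrix (Fin n) (Fin n) (MonoidAlgebra ℤ G)) :
    chern 0 A B b = ∑ i, ∑ j, bf b (B i j) (A j i) := by
  unfold chern wsum
  rw [zero_add, pow_one, Matrix.trace, map_sum]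
  refine Finset.sum_congr rfl fun i _ => ?_
  rw [Matrix.diag_apply, Matrix.mul_apply, map_sum]
  rfl

/-- The lowest term modulo `M ^ 2`. -/
theorem chern_zero_cong (hb : IsMixed k b) (c : G) (hsupp : ∀ c' u, ¬ IsConj c c' → b c' u = 0)
    (M : ℕ) (A B Y C : Matrix (Fin n) (Fin n) (MonoidAlgebra ℤ G)) (hA : A = 1 + M • Y)
    (hB : B = 1 + M • C) :
    ∃ R : ℤ, chern 0 A B b = M * (b c [] * classSum c C.trace) + M ^ 2 * R := by
  refine ⟨∑ i, ∑ j, bf b (C i j) (Y j i), ?_⟩
  have h1 : ∀ i j, bf b (B i j) (A j i) =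
      (if i = j then M * (b c [] * classSum c (C i i)) else 0) +
        M ^ 2 * bf b (C i j) (Y j i) := by
    intro i j
    have hBij : B i j = (1 : Matrix (Fin n) (Fin n) (MonoidAlgebra ℤ G)) i j + M • C i j := by
      rw [hB]; rfl
    have hAji : A j i = (1 : Matrix (Fin n) (Fin n) (MonoidAlgebra ℤ G)) j i + M • Y j i := by
      rw [hA]; rfl
    rw [hBij, hAji, Matrix.one_apply, Matrix.one_apply, bf_add_left, bf_add_right, bf_add_right,
      bf_smul_left, bf_smul_left, bf_smul_right, bf_smul_right]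
    by_cases h : i = j
    · subst h
      rw [if_pos rfl, if_pos rfl, bf_one_left hb, bf_one_left hb, bf_one_right hb c hsupp]
      ring
    · rw [if_neg h, if_neg (Ne.symm h), if_neg h, bf_zero_left, bf_zero_left, bf_zero_right]
      ring
  rw [chern_zero_eq, Finset.sum_congr rfl fun i _ => Finset.sum_congr rfl fun j _ => h1 i j,
    Finset.mul_sum]
  simp_rw [Finset.sum_add_distrib, Finset.mul_sum]
  congr 1
  rw [Matrix.trace, map_sum, Finset.mul_sum, Finset.mul_sum]
  refine Finset.sum_congr rfl fun i _ => ?_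
  rw [Finset.sum_ite_eq]
  simp

/-- The divisibility obtained from the vanishing of the pairing. -/
theorem dvd_of_mixedChern (hb : IsMixed k b) (hk : 0 < k) (c : G)
    (hsupp : ∀ c' u, ¬ IsConj c c' → b c' u = 0) {M : ℕ} (hM : 0 < M)
    (A B Y : Matrix (Fin n) (Fin n) (MonoidAlgebra ℤ G)) (hAB : A * B = 1) (hA : A = 1 + M • Y)
    (h0 : mixedChern k A B b = 0) :
    (M : ℤ) ∣ (∏ j ∈ Finset.Ico 1 k, (2 * (j : ℤ) + 1)) * b c [] * classSum c Y.trace := by
  have hB : B = 1 + M • (-(Y * B)) := by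
    have h1 : B + M • (Y * B) = 1 := by
      rw [← hAB, hA, add_mul, one_mul, smul_mul_assoc]
    rw [smul_neg, ← h1]
    abel
  have hC : -(Y * B) = -Y + M • (Y * (Y * B)) := by
    conv_lhs => rw [hB]
    rw [mul_add, mul_one, mul_smul_comm, mul_neg, smul_neg]
    abel
  obtain ⟨R, hR⟩ := chern_zero_cong hb c hsupp M A B Y _ hA hB
  have hone : ∀ (i j : Fin n) (g : G), g ≠ 1 →
      ((1 : Matrix (Fin n) (Fin n) (MonoidAlgebra ℤ G)) i j).coeff g = 0 := by
    intro i j g hg
    rw [Matrix.one_apply]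
    split_ifs
    · rw [MonoidAlgebra.one_def, MonoidAlgebra.coeff_single, Finsupp.single_eq_of_ne hg]
    · rw [MonoidAlgebra.coeff_zero, Finsupp.zero_apply]
  have hdiv : ∀ (X Z : Matrix (Fin n) (Fin n) (MonoidAlgebra ℤ G)), X = 1 + M • Z →
      ∀ i j g, g ≠ 1 → (M : ℤ) ∣ (X i j).coeff g := by
    intro X Z hX i j g hg
    have : X i j = (1 : Matrix (Fin n) (Fin n) (MonoidAlgebra ℤ G)) i j + M • Z i j := by
      rw [hX]; rfl
    rw [this, MonoidAlgebra.coeff_add, Finsupp.add_apply, hone i j g hg, zero_add,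
      MonoidAlgebra.coeff_smul_apply, nsmul_eq_mul]
    exact dvd_mul_right _ _
  have hsum : mixedChern k A B b = (∏ j ∈ Finset.Ico 1 k, (2 * (j : ℤ) + 1)) * chern 0 A B b +
      ∑ m ∈ Finset.range (k - 1), ((m + 1).factorial : ℤ) *
        (∏ j ∈ Finset.Ico (m + 1 + 1) k, (2 * (j : ℤ) + 1)) * chern (m + 1) A B b := by
    unfold mixedChern
    obtain ⟨k', rfl⟩ : ∃ k', k = k' + 1 := ⟨k - 1, by omega⟩
    rw [Finset.sum_range_succ', add_comm]
    simp
  have hhigh : (M : ℤ) ^ 2 ∣ ∑ m ∈ Finset.range (k - 1), ((m + 1).factorial : ℤ) *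
        (∏ j ∈ Finset.Ico (m + 1 + 1) k, (2 * (j : ℤ) + 1)) * chern (m + 1) A B b := by
    refine Finset.dvd_sum fun m _ => dvd_mul_of_dvd_right ?_ _
    exact (pow_dvd_pow _ (by omega)).trans
      (chern_dvd hb A B (hdiv A Y hA) (hdiv B _ hB))
  rw [h0, hR, hC, Matrix.trace_add, Matrix.trace_neg, map_add, map_neg, Matrix.trace_smul,
    map_nsmul, nsmul_eq_mul] at hsum
  obtain ⟨S, hS⟩ := hhigh
  rw [hS] at hsum
  set D : ℤ := ∏ j ∈ Finset.Ico 1 k, (2 * (j : ℤ) + 1)
  refine ⟨D * (b c [] * classSum c (Y * (Y * B)).trace) + D * R + S, ?_⟩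
  have hM0 : (M : ℤ) ≠ 0 := by exact_mod_cast hM.ne'
  apply mul_left_cancel₀ hM0
  linear_combination hsum

end first

/-- **The class sums away from `1`.** -/
theorem mix_step (htf : ∀ g : G, ∀ m : ℕ, 0 < m → g ^ m = 1 → g = 1) {n : ℕ} {p M : ℕ}
    (hp : p.Prime) (hpM : p ∣ M) (h4 : p = 2 → 4 ∣ M) (hM : 0 < M)
    (A B : Matrix (Fin n) (Fin n) (MonoidAlgebra ℤ G)) (hAB : A * B = 1) (hBA : B * A = 1)
    (Y : Matrix (Fin n) (Fin n) (MonoidAlgebra ℤ G)) (hA : A = 1 + M • Y) (c : G) (hc1 : c ≠ 1)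
    {k : ℕ} {b : G → List G → ℤ} (hb : IsMixed k b) (hD : b c [] ≠ 0)
    (hS : {p : ℕ | p.Prime ∧ ∀ x : G, x * c ^ p = c ^ p * x → x * c = c * x}.Infinite) :
    (p : ℤ) ∣ classSum c Y.trace := by
  have hk : 0 < k := by
    rcases Nat.eq_zero_or_pos k with rfl | h
    · exfalso
      apply hD
      rw [← val_pair hb c]
      exact hb.len c _ (by simp)
    · exact h
  -- restrict to the class of `c`
  have hm := final_cls hb c
  have hs : ∀ c' u', ¬ IsConj c c' → clsR c b c' u' = 0 := by
    intro c' u' h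
    unfold clsR
    rw [if_neg h]
  have hcl : clsR c b c [] = b c [] := by
    unfold clsR
    rw [if_pos (IsConj.refl c)]
  rw [← hcl] at hD
  generalize clsR c b = b' at hm hs hD
  set D : ℤ := (∏ j ∈ Finset.Ico 1 k, (2 * (j : ℤ) + 1)) * b' c [] with hDdef
  have hD0 : D ≠ 0 := by
    refine mul_ne_zero (Finset.prod_ne_zero_iff.2 fun j _ => ?_) hD
    positivity
  by_contra hnd
  have key : ∀ s : ℕ, ((p ^ s : ℕ) : ℤ) ∣ D := by
    intro s
    obtain ⟨W, hW⟩ := pow_cong_iter hp hpM h4 A Y hA s
    have hABs : A ^ p ^ s * B ^ p ^ s = 1 := by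
      rw [← (show Commute A B from by rw [Commute, SemiconjBy, hAB, hBA]).mul_pow, hAB, one_pow]
    have hBAs : B ^ p ^ s * A ^ p ^ s = 1 := by
      rw [← (show Commute B A from by rw [Commute, SemiconjBy, hAB, hBA]).mul_pow, hBA, one_pow]
    have h0 := stable_zero htf (A ^ p ^ s) (B ^ p ^ s) hABs hBAs hk hm c hc1 hs hD hS
    have h1 := dvd_of_mixedChern hm hk c hs (M := p ^ s * M) (Nat.mul_pos (pow_pos hp.pos s) hM)
      _ _ _ hABs hW h0
    rw [← hDdef, Matrix.trace_add, map_add, Matrix.trace_smul, map_nsmul, nsmul_eq_mul] at h1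
    have h2 : IsCoprime ((p ^ s : ℕ) : ℤ) (classSum c Y.trace + p * classSum c W.trace) := by
      rw [Nat.cast_pow]
      refine IsCoprime.pow_left ?_
      rw [(Nat.prime_iff_prime_int.1 hp).coprime_iff_not_dvd]
      intro h
      apply hnd
      have := dvd_sub h (dvd_mul_right (p : ℤ) (classSum c W.trace))
      rwa [add_sub_cancel_right] at this
    refine h2.dvd_of_dvd_mul_right ?_
    refine dvd_trans ?_ h1
    push_cast
    exact dvd_mul_right _ _
  have h3 := Int.natAbs_dvd_natAbs.2 (key D.natAbs)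
  rw [Int.natAbs_natCast] at h3
  have h4 := Nat.le_of_dvd (Int.natAbs_pos.2 hD0) h3
  exact absurd (Nat.lt_pow_self hp.one_lt) (not_lt.2 h4)

end Pool.Agent.Cong
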