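import Mathlib
import Pool.Agent.Lib.MP_8f66f0_al_Cong.CGood
import Pool.Agent.Lib.MP_8f66f0_al_Dennis.Linear
import Pool.Agent.Lib.MP_8f66f0_al_Dennis.Roots
import Pool.Agent.Lib.MP_8f66f0_al_FinQ.Detect
import Pool.Agent.Lib.MP_8f66f0_al_Uni.Arith
import Pool.Agent.Lib.MP_8f66f0_al_Uni.DetGood
import Pool.Agent.Lib.MP_8f66f0_al_Uni.LinData
import Pool.Agent.Lib.MP_8f66f0_al_Uni.Rings

/-! Detected classes are good. -/

set_option autoImplicit false
set_option linter.unusedSectionVars false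
set_option maxSynthPendingDepth 3

namespace Pool.Agent.Lib.MP_8f66f0_al_Cong

open Pool.Agent.Lib.MP_8f66f0_al_Dennis hiding lin mtr mtr_apply
open Pool.Agent.Lib.MP_8f66f0_al_FinQ Pool.Agent.Lib.MP_8f66f0_al_Plus
  Pool.Agent.Lib.MP_8f66f0_al_Uni

lemma not_isUnit_int {p : ℕ} (hp : p.Prime) : ¬ IsUnit ((p : ℕ) : ℤ) := by
  intro h
  have h1 := Int.isUnit_iff_natAbs_eq.mp h
  rw [Int.natAbs_natCast] at h1
  exact hp.one_lt.ne' h1

/-- Detected classes are good. -/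
theorem cgood_of_detected {Γ : Type*} [Group Γ] (hsep : PowerSep Γ) {n : ℕ}
    {A B : Matrix (Fin n) (Fin n) (MonoidAlgebra ℤ Γ)} (hAB : A * B = 1) (hBA : B * A = 1)
    {p : ℕ} (hp : p.Prime) {c : Γ} (hc : Detected c) : CGood p A c := by
  have hinf := detected_infinite hc
  obtain ⟨δ, hδ, hne⟩ := hc
  have hpair : ∀ A' B' : Matrix (Fin n) (Fin n) (MonoidAlgebra ℤ Γ),
      EntIn ((kerI ℤ (MonoidHom.id Γ)) ^ (0 + 1)) (A' * B' - 1) →
      EntIn ((kerI ℤ (MonoidHom.id Γ)) ^ (0 + 1)) (B' * A' - 1) →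
      mbil (bil (psiW (MonoidHom.id Γ) c δ)) (baseMat ℤ A') (baseMat ℤ B') = 0 := by
    intro A' B' hAB' hBA'
    have hdiv : ∀ x : ℤ, x ≠ 0 → ∃ N : ℕ, ∀ l : ℕ, l.Prime → N < l → ¬ (l : ℤ) ∣ x := by
      intro x hx
      refine ⟨x.natAbs, fun l _ hlt hdvd => ?_⟩
      have h1 := Int.natAbs_dvd_natAbs.mpr hdvd
      rw [Int.natAbs_natCast] at h1
      have h2 := Nat.le_of_dvd (Int.natAbs_pos.mpr hx) h1
      omega
    refine pairing_zero (R := ℤ) hdiv hsep hinf ?_ one_pos hne ?_ hAB' hBA'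
      (isPoly_of_cocycle hδ)
    · obtain ⟨N, hN⟩ := hdiv _ hne
      refine ⟨N, fun l hl hlt x hx => hN l hl hlt ⟨δ x c, ?_⟩⟩
      have h1 := class_cocycle_pow hδ (IsConj.refl c) (y := x) (by rw [← hx]; group) l
      rwa [hx] at h1
    · obtain ⟨N, hN⟩ := hsep.1
      refine ⟨N, fun l hl hlt => ?_⟩
      obtain ⟨δ', hδ'⟩ := exists_cocycle_pow hδ (hN l hl hlt)
      exact ⟨δ', by rwa [pow_one]⟩
  exact cgood_of_poly hAB hBA hp (not_isUnit_int hp) (π := MonoidHom.id Γ)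
    Function.surjective_id (fun h => hinf 1 one_pos (by rw [h, one_pow])) hne
    (isPoly_of_cocycle hδ) hpair

/-- Classes of infinite order in some representation are good. -/
theorem cgood_of_rep {Γ : Type*} [Group Γ] [Group.FG Γ] (hsep : PowerSep Γ) {p : ℕ}
    (hp : p.Prime) {R : Type*} [CommRing R] [IsDomain R] [CharZero R] (hpR : ¬ IsUnit (p : R))
    {m : ℕ} (ρ : Γ →* Matrix.GeneralLinearGroup (Fin m) R) {c : Γ}
    (hc : ∀ n : ℕ, 0 < n → ρ c ^ n ≠ 1) {n : ℕ}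
    {A B : Matrix (Fin n) (Fin n) (MonoidAlgebra ℤ Γ)} (hAB : A * B = 1) (hBA : B * A = 1) :
    CGood p A c := by
  classical
  -- the image
  set N := ρ.range with hNdef
  set φ : Γ →* N := ρ.rangeRestrict with hφ
  have hFG : Group.FG N := Group.fg_range ρ
  obtain ⟨R', ρ', hft, hinj, hpR'⟩ := exists_fg_domain hpR N.subtype (Subgroup.subtype_injective N)
  have hnoeth : IsNoetherianRing R' := Algebra.FiniteType.isNoetherianRing ℤ R'
  have hchar : CharZero R' := inferInstance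
  set c' : N := φ c with hc'
  have hc1 : ∀ n : ℕ, 0 < n → c' ^ n ≠ 1 := by
    intro n hn h
    apply hc n hn
    have := congrArg Subtype.val h
    rwa [Subgroup.coe_pow, Subgroup.coe_one] at this
  have hcinf : ∀ n : ℕ, 0 < n → c ^ n ≠ 1 := by
    intro n hn h
    apply hc n hn
    rw [← map_pow, h, map_one]
  have hcne : c ≠ 1 := by
    rintro rfl
    exact hc 1 one_pos (by rw [map_one, one_pow])
  set K := FractionRing R'
  set Ω := AlgebraicClosure K
  have hinjΩ : Function.Injective (algebraMap R' Ω) := by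
    rw [IsScalarTower.algebraMap_eq R' K Ω]
    exact (algebraMap K Ω).injective.comp (IsFractionRing.injective R' K)
  set σ : Γ →* Matrix.GeneralLinearGroup (Fin m) Ω :=
    ((Matrix.GeneralLinearGroup.map (algebraMap R' Ω)).comp ρ').comp φ with hσ
  by_cases heig : ∃ μ, (σ c : Matrix (Fin m) (Fin m) Ω).charpoly.IsRoot μ ∧
      ∀ N : ℕ, 0 < N → μ ^ N ≠ 1
  · obtain ⟨μ, hμ, hμ'⟩ := heig
    obtain ⟨lam, hlam⟩ := exists_lam_of_not_root σ c hμ hμ'
    exact cgood_of_detected hsep hAB hBA hp (detected_of_hom lam hlam)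
  push Not at heig
  obtain ⟨M, hM, hM1⟩ := exists_pow_unipotent (σ c : Matrix (Fin m) (Fin m) Ω) heig
  have hu : ((ρ' (c' ^ M) : Matrix (Fin m) (Fin m) R') - 1) ^ m = 0 := by
    have h1 : (σ c : Matrix (Fin m) (Fin m) Ω) =
        (algebraMap R' Ω).mapMatrix (ρ' c' : Matrix (Fin m) (Fin m) R') := rfl
    rw [h1, ← map_pow, ← map_one (algebraMap R' Ω).mapMatrix, ← map_sub, ← map_pow] at hM1
    rw [map_pow, Units.val_pow_eq_pow_val]
    ext i j
    have h2 := congrFun (congrFun hM1 i) j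
    rw [RingHom.mapMatrix_apply, Matrix.map_apply, Matrix.zero_apply] at h2
    have h3 := hinjΩ (h2.trans (map_zero _).symm)
    rw [h3]
    rfl
  have hne : (ρ' (c' ^ M) : Matrix (Fin m) (Fin m) R') ≠ 1 := by
    intro h
    apply hc1 M hM
    apply hinj
    rw [map_one]
    exact Units.ext h
  have hU : HasUData R' K c' := hasUData_of_quasiunipotent ρ' hM hu hne
  obtain ⟨J, a, D, ha, hD, hfam⟩ := exists_poly_family hU
  -- unique roots in the image
  have hroots : ∃ N₀ : ℕ, ∀ l : ℕ, l.Prime → N₀ < l → ∀ x y : N, x ^ l = y ^ l → x = y := by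
    have : Fact p.Prime := ⟨hp⟩
    obtain ⟨I, hI, hpI⟩ := exists_max_ideal_of_mem_nonunits (hpR' : (p : R') ∈ nonunits R')
    have hftI : Algebra.FiniteType ℤ (R' ⧸ I) :=
      Algebra.FiniteType.of_surjective (Ideal.Quotient.mkₐ ℤ I) (Ideal.Quotient.mkₐ_surjective ℤ I)
    let _ : Field (R' ⧸ I) := Ideal.Quotient.field I
    have hft1 : @Algebra.FiniteType ℤ (R' ⧸ I) _ _ (Ring.toIntAlgebra _) := by
      convert! hftI
    obtain ⟨hfin, _⟩ := finite_field_of_finiteType (R' ⧸ I)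
    exact (virtuallyResiduallyFiniteQ_of_linear ρ' hinj hp I hI.ne_top hpI).roots
  -- pull back of the cocycles
  have hcomm : ∀ g, pr N (FreeGroup.map φ g) = φ (pr Γ g) := by
    intro g
    have h1 : (pr N).comp (FreeGroup.map φ) = φ.comp (pr Γ) := by
      refine FreeGroup.ext_hom _ _ fun a => ?_
      rw [MonoidHom.comp_apply, MonoidHom.comp_apply, FreeGroup.map.of, pr_of, pr_of]
    exact DFunLike.congr_fun h1 g
  have hpull : ∀ k : ℕ, 0 < k → (∀ g : N, Commute g (c' ^ k) → Commute g c') →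
      ∃ δ : FreeGroup Γ → FreeGroup Γ → R', IsPoly (pr Γ) (c ^ k) J δ ((k : R') ^ a * D) := by
    intro k hk hcent
    obtain ⟨δ, hδ⟩ := hfam k hk hcent
    rw [hc', ← map_pow] at hδ
    exact ⟨_, hδ.pullback (FreeGroup.map φ) φ hcomm⟩
  obtain ⟨δ, hδ⟩ := hpull 1 one_pos (by intro g hg; rwa [pow_one] at hg)
  rw [pow_one, Nat.cast_one, one_pow, one_mul] at hδ
  have hpair : ∀ A' B' : Matrix (Fin n) (Fin n) (MonoidAlgebra ℤ (FreeGroup Γ)),
      EntIn ((kerI ℤ (pr Γ)) ^ (J + 1)) (A' * B' - 1) →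
      EntIn ((kerI ℤ (pr Γ)) ^ (J + 1)) (B' * A' - 1) →
      mbil (bil (psiW (pr Γ) c δ)) (baseMat R' A') (baseMat R' B') = 0 := by
    intro A' B' hAB' hBA'
    refine pairing_zero (fun x hx => exists_not_dvd x hx) hsep hcinf ?_ ha hD ?_ hAB' hBA' hδ
    · obtain ⟨N₀, hN₀⟩ := exists_not_pow ρ' hM hu hne
      refine ⟨N₀, fun l hl hlt x hx => hN₀ l hl hlt (φ x) ?_⟩
      rw [← map_pow, hx]
    · obtain ⟨N₀, hN₀⟩ := hroots
      refine ⟨N₀, fun l hl hlt => hpull l hl.pos fun g hg => ?_⟩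
      have h1 : (g * c' * g⁻¹) ^ l = c' ^ l := by
        rw [conj_pow, hg.eq, mul_inv_cancel_right]
      have h2 := hN₀ l hl hlt _ _ h1
      exact mul_inv_eq_iff_eq_mul.mp h2
  exact cgood_of_poly hAB hBA hp hpR' (pr_surjective Γ) hcne hD hδ hpair

/-- All classes which are detected or of infinite order in a suitable representation are good. -/
theorem cgood_of_pdet.{v, u} {Γ : Type u} [Group Γ] [Group.FG Γ] (hsep : PowerSep Γ) {n : ℕ}
    {A B : Matrix (Fin n) (Fin n) (MonoidAlgebra ℤ Γ)} (hAB : A * B = 1) (hBA : B * A = 1)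
    {p : ℕ} (hp : p.Prime) {c : Γ} (hc : PDet.{v} p c) : CGood p A c := by
  rcases hc with h | ⟨R, _, _, _, m, ρ, hpR, hord⟩
  · exact cgood_of_detected hsep hAB hBA hp h
  · exact cgood_of_rep hsep hp hpR ρ hord hAB hBA

end Pool.Agent.Lib.MP_8f66f0_al_Cong
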