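import Mathlib
import Pool.Agent.Lib.MP_8f66f0_al_Cong.Aug

/-! Class sums modulo two: squares. -/

set_option autoImplicit false
set_option linter.unusedSectionVars false

namespace Pool.Agent.Lib.MP_8f66f0_al_Cong

open Pool.Agent.Cong

variable {Γ : Type*} [Group Γ]

lemma classSum_mul_comm (c : Γ) (x y : MonoidAlgebra ℤ Γ) :
    classSum c (x * y) = classSum c (y * x) := by
  classical
  induction x using MonoidAlgebra.induction_linear with
  | zero => rw [zero_mul, mul_zero]
  | add x x' hx hx' => rw [add_mul, mul_add, map_add, map_add, hx, hx']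
  | single g a =>
    induction y using MonoidAlgebra.induction_linear with
    | zero => rw [zero_mul, mul_zero]
    | add y y' hy hy' => rw [add_mul, mul_add, map_add, map_add, hy, hy']
    | single h b =>
      rw [MonoidAlgebra.single_mul_single, MonoidAlgebra.single_mul_single, classSum_single,
        classSum_single, mul_comm a b]
      have h1 : IsConj (g * h) (h * g) := isConj_iff.mpr ⟨h, by group⟩
      by_cases h2 : IsConj c (g * h)
      · rw [if_pos h2, if_pos (h2.trans h1)]
      · rw [if_neg h2, if_neg fun h3 => h2 (h3.trans h1.symm)]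

/-- The additive map given by the squares of the group elements. -/
noncomputable def sqMap (x : MonoidAlgebra ℤ Γ) : MonoidAlgebra ℤ Γ :=
  MonoidAlgebra.mapDomain (fun g : Γ => g ^ 2) x

lemma sqMap_zero : sqMap (0 : MonoidAlgebra ℤ Γ) = 0 := MonoidAlgebra.mapDomain_zero _

lemma sqMap_add (x y : MonoidAlgebra ℤ Γ) : sqMap (x + y) = sqMap x + sqMap y :=
  MonoidAlgebra.mapDomain_add _ _ _

lemma sqMap_single (g : Γ) (a : ℤ) :
    sqMap (MonoidAlgebra.single g a) = MonoidAlgebra.single (g ^ 2) a :=
  MonoidAlgebra.mapDomain_single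

lemma sqMap_sum {ι : Type*} (s : Finset ι) (f : ι → MonoidAlgebra ℤ Γ) :
    sqMap (∑ i ∈ s, f i) = ∑ i ∈ s, sqMap (f i) := by
  classical
  induction s using Finset.induction_on with
  | empty => rw [Finset.sum_empty, Finset.sum_empty, sqMap_zero]
  | insert a s ha ih => rw [Finset.sum_insert ha, Finset.sum_insert ha, sqMap_add, ih]

/-- The class sums of a square. -/
lemma classSum_sq (c : Γ) (x : MonoidAlgebra ℤ Γ) :
    (2 : ℤ) ∣ classSum c (x * x) - classSum c (sqMap x) := by
  classical
  induction x using MonoidAlgebra.induction_linear with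
  | zero => rw [mul_zero, sqMap_zero, sub_self]; exact dvd_zero _
  | add x y hx hy =>
    have e : classSum c ((x + y) * (x + y)) - classSum c (sqMap (x + y)) =
        (classSum c (x * x) - classSum c (sqMap x)) + (classSum c (y * y) - classSum c (sqMap y)) +
          2 * classSum c (x * y) := by
      rw [sqMap_add, add_mul, mul_add, mul_add]
      simp only [map_add]
      rw [classSum_mul_comm c y x]
      ring
    rw [e]
    exact dvd_add (dvd_add hx hy) (dvd_mul_right _ _)
  | single g a =>
    rw [MonoidAlgebra.single_mul_single, sqMap_single, classSum_single, classSum_single, pow_two]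
    split_ifs
    · have h1 : (2 : ℤ) ∣ a * (a - 1) := by
        rcases Int.even_or_odd a with h | h
        · exact Dvd.dvd.mul_right h.two_dvd _
        · exact Dvd.dvd.mul_left (by obtain ⟨t, rfl⟩ := h; exact ⟨t, by ring⟩) _
      have e : a * a - a = a * (a - 1) := by ring
      rw [e]
      exact h1
    · rw [sub_zero]
      exact dvd_zero _

/-- A symmetric double sum is congruent to its diagonal part modulo two. -/
lemma sum_sum_symm {n : Type*} [Fintype n] [DecidableEq n] (F : n → n → ℤ)
    (hF : ∀ i j, F i j = F j i) : (2 : ℤ) ∣ (∑ i, ∑ j, F i j) - ∑ i, F i i := by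
  rw [← Int.modEq_iff_dvd]
  have h2 : ((∑ i, F i i : ℤ) : ZMod 2) = ((∑ i, ∑ j, F i j : ℤ) : ZMod 2) := by
    push_cast
    have h3 : (∑ i, ∑ j, (F i j : ZMod 2)) = (∑ i, (F i i : ZMod 2)) +
        ∑ x : n × n, (if x.1 = x.2 then 0 else (F x.1 x.2 : ZMod 2)) := by
      rw [Fintype.sum_prod_type, ← Finset.sum_add_distrib]
      refine Finset.sum_congr rfl fun i _ => ?_
      rw [← Finset.add_sum_erase _ _ (Finset.mem_univ i),
        ← Finset.add_sum_erase _ (fun j => if i = j then (0 : ZMod 2) else (F i j : ZMod 2))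
          (Finset.mem_univ i)]
      simp only [if_true, zero_add]
      congr 1
      refine Finset.sum_congr rfl fun j hj => ?_
      rw [if_neg (Finset.ne_of_mem_erase hj).symm]
    have h4 : ∑ x : n × n, (if x.1 = x.2 then 0 else (F x.1 x.2 : ZMod 2)) = 0 := by
      refine Finset.sum_involution (fun x _ => (x.2, x.1)) ?_ ?_ ?_ ?_
      · rintro ⟨i, j⟩ _
        simp only
        by_cases h : i = j
        · rw [if_pos h, if_pos h.symm, add_zero]
        · rw [if_neg h, if_neg (Ne.symm h), hF i j]
          exact CharTwo.add_self_eq_zero _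
      · rintro ⟨i, j⟩ _ hne heq
        apply hne
        simp only
        have : i = j := (congrArg Prod.snd heq)
        rw [if_pos this]
      · intro x _
        exact Finset.mem_univ _
      · intro x _
        rfl
    rw [h3, h4, add_zero]
  exact (ZMod.intCast_eq_intCast_iff _ _ _).mp h2

/-- The class sums of the trace of a square. -/
lemma classSum_trace_sq {n : Type*} [Fintype n] [DecidableEq n] (c : Γ)
    (Y : Matrix n n (MonoidAlgebra ℤ Γ)) :
    (2 : ℤ) ∣ classSum c (Y * Y).trace - classSum c (sqMap Y.trace) := by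
  have h1 : classSum c (Y * Y).trace = ∑ i, ∑ j, classSum c (Y i j * Y j i) := by
    rw [Matrix.trace, map_sum]
    refine Finset.sum_congr rfl fun i _ => ?_
    rw [Matrix.diag_apply, Matrix.mul_apply, map_sum]
  have h2 : classSum c (sqMap Y.trace) = ∑ i, classSum c (sqMap (Y i i)) := by
    rw [Matrix.trace, sqMap_sum, map_sum]
    rfl
  have h3 := sum_sum_symm (fun i j => classSum c (Y i j * Y j i))
    (fun i j => classSum_mul_comm c _ _)
  have h4 : (2 : ℤ) ∣ (∑ i, classSum c (Y i i * Y i i)) - ∑ i, classSum c (sqMap (Y i i)) := by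
    rw [← Finset.sum_sub_distrib]
    exact Finset.dvd_sum fun i _ => classSum_sq c (Y i i)
  rw [h1, h2]
  have := dvd_add h3 h4
  rwa [sub_add_sub_cancel] at this

/-- The class sums of the squares are even if the class sums at the square roots are. -/
lemma classSum_sqMap (c : Γ) (x : MonoidAlgebra ℤ Γ)
    (h : ∀ b : Γ, IsConj c (b ^ 2) → (2 : ℤ) ∣ classSum b x) :
    (2 : ℤ) ∣ classSum c (sqMap x) := by
  classical
  have h1 : ∀ x : MonoidAlgebra ℤ Γ, classSum c (sqMap x) =
      classSum c (sqMap (MonoidAlgebra.mapDomain rep x)) := by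
    intro x
    induction x using MonoidAlgebra.induction_linear with
    | zero => rw [MonoidAlgebra.mapDomain_zero]
    | add x y hx hy => rw [MonoidAlgebra.mapDomain_add, sqMap_add, sqMap_add, map_add, map_add, hx, hy]
    | single g a =>
      rw [MonoidAlgebra.mapDomain_single, sqMap_single, sqMap_single, classSum_single,
        classSum_single]
      have h2 : IsConj (g ^ 2) (rep g ^ 2) := (isConj_rep g).pow 2
      by_cases h3 : IsConj c (g ^ 2)
      · rw [if_pos h3, if_pos (h3.trans h2)]
      · rw [if_neg h3, if_neg fun h4 => h3 (h4.trans h2.symm)]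
  rw [h1]
  set y := MonoidAlgebra.mapDomain rep x with hy
  have h2 : ∀ z : MonoidAlgebra ℤ Γ, classSum c (sqMap z) =
      z.coeff.sum fun g a => if IsConj c (g ^ 2) then a else 0 := by
    intro z
    induction z using MonoidAlgebra.induction_linear with
    | zero => rw [sqMap_zero, map_zero]; rfl
    | add u v hu hv =>
      rw [sqMap_add, map_add, hu, hv, MonoidAlgebra.coeff_add, Finsupp.sum_add_index']
      · intro g
        simp
      · intro g a b
        split_ifs <;> simp
    | single g a =>
      rw [sqMap_single, classSum_single, MonoidAlgebra.coeff_single, Finsupp.sum_single_index]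
      simp
  rw [h2, Finsupp.sum]
  refine Finset.dvd_sum fun g _ => ?_
  split_ifs with hg
  · by_cases hr : rep g = g
    · rw [hy, coeff_rep x g hr]
      exact h g hg
    · rw [hy, coeff_rep_ne x g hr]
      exact dvd_zero _
  · exact dvd_zero _

/-- `c` is not conjugate to its powers of exponent `2 ^ s`. -/
def NoSelf (c : Γ) : Prop := ∀ s : ℕ, 0 < s → ¬ IsConj c (c ^ 2 ^ s)

/-- An element whose class sums are congruent modulo two to those of its squares. -/
theorem even_of_sq (hns : ∀ c : Γ, c ≠ 1 → NoSelf c) (x : MonoidAlgebra ℤ Γ)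
    (hx : ∀ c : Γ, c ≠ 1 → (2 : ℤ) ∣ classSum c x + classSum c (sqMap x)) :
    ∀ c : Γ, c ≠ 1 → (2 : ℤ) ∣ classSum c x := by
  classical
  intro c0 hc0
  by_contra hcon
  have hstep : ∀ c : Γ, (c ≠ 1 ∧ ¬ (2 : ℤ) ∣ classSum c x) →
      ∃ b : Γ, (b ≠ 1 ∧ ¬ (2 : ℤ) ∣ classSum b x) ∧ IsConj c (b ^ 2) := by
    rintro c ⟨hc, hcx⟩
    have h1 : ¬ (2 : ℤ) ∣ classSum c (sqMap x) := fun h => hcx ((dvd_add_left h).mp (hx c hc))
    by_contra hno
    push Not at hno
    apply h1
    refine classSum_sqMap c x fun b hb => ?_
    by_contra hb2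
    refine hno b ⟨?_, hb2⟩ hb
    rintro rfl
    rw [one_pow] at hb
    exact hc (isConj_one_left.mp hb)
  choose f hf using hstep
  let S := {c : Γ // c ≠ 1 ∧ ¬ (2 : ℤ) ∣ classSum c x}
  let F : S → S := fun c => ⟨f c.1 c.2, (hf c.1 c.2).1⟩
  have hF : ∀ c : S, IsConj c.1 ((F c).1 ^ 2) := fun c => (hf c.1 c.2).2
  let b : ℕ → S := fun m => F^[m] ⟨c0, hc0, hcon⟩
  have hb : ∀ i, IsConj (b i).1 ((b (i + 1)).1 ^ 2) := by
    intro i
    have : b (i + 1) = F (b i) := Function.iterate_succ_apply' F i _
    rw [this]
    exact hF _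
  have hbj : ∀ i s, IsConj (b i).1 ((b (i + s)).1 ^ 2 ^ s) := by
    intro i s
    induction s with
    | zero => rw [pow_zero, pow_one]; exact IsConj.refl _
    | succ s ih =>
      have h1 := (hb (i + s)).pow (2 ^ s)
      rw [← pow_mul, ← pow_succ'] at h1
      exact ih.trans h1
  -- finitely many classes
  have hfin : (Set.range fun i => ConjClasses.mk (b i).1).Finite := by
    refine ((x.coeff.support.finite_toSet).image ConjClasses.mk).subset ?_
    rintro _ ⟨i, rfl⟩
    have h1 : classSum (b i).1 x ≠ 0 := fun h => (b i).2.2 (by rw [h]; exact dvd_zero _)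
    have h2 : ∃ g ∈ x.coeff.support, IsConj (b i).1 g := by
      by_contra hno
      push Not at hno
      apply h1
      change x.coeff.sum (fun g a => if IsConj (b i).1 g then a else 0) = 0
      exact Finset.sum_eq_zero fun g hg => if_neg (hno g hg)
    obtain ⟨g, hg, hgc⟩ := h2
    exact ⟨g, hg, (ConjClasses.mk_eq_mk_iff_isConj.mpr hgc).symm⟩
  have hninj : ¬ Function.Injective fun i => ConjClasses.mk (b i).1 := by
    intro hinj
    exact Set.infinite_range_of_injective hinj hfin
  rw [Function.Injective] at hninj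
  push Not at hninj
  obtain ⟨i, j, hij, hne⟩ := hninj
  have key : ∀ i j, i < j → ConjClasses.mk (b i).1 = ConjClasses.mk (b j).1 → False := by
    intro i j hlt h
    obtain ⟨s, rfl⟩ := Nat.exists_eq_add_of_lt hlt
    have h1 := hbj i (s + 1)
    have h2 : IsConj (b i).1 (b (i + s + 1)).1 := ConjClasses.mk_eq_mk_iff_isConj.mp h
    exact hns _ (b (i + s + 1)).2.1 (s + 1) (Nat.succ_pos s) (h2.symm.trans h1)
  rcases lt_or_gt_of_ne hne with h | h
  · exact key i j h hij
  · exact key j i h hij.symm

end Pool.Agent.Lib.MP_8f66f0_al_Cong
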