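import Mathlib
import Pool.Agent.Lib.MP_8f66f0_al_Cong.Two
import Pool.Agent.Lib.MP_8f66f0_al_Dennis.Linear
import Pool.Agent.Lib.MP_8f66f0_al_Dennis.Residue
import Pool.Agent.Lib.MP_8f66f0_al_Dennis.Roots
import Pool.Agent.Lib.MP_8f66f0_al_Stab.Step
import Pool.Agent.Lib.MP_8f66f0_al_Uni.DetGood
import Pool.Agent.Lib.MP_8f66f0_al_Uni.Rings

/-! Elements which are not conjugate to their powers of exponent `2 ^ s`. -/

set_option autoImplicit false
set_option linter.unusedSectionVars false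

namespace Pool.Agent.Lib.MP_8f66f0_al_Cong

open Pool.Agent.Lib.MP_8f66f0_al_Dennis hiding lin mtr mtr_apply
open Pool.Agent.Lib.MP_8f66f0_al_FinQ Pool.Agent.Lib.MP_8f66f0_al_Uni
  Pool.Agent.Lib.MP_8f66f0_al_Mixed

variable {Γ : Type*} [Group Γ]

/-- If `c` is conjugate to `c ^ l`, it is the `l ^ m`-th power of a conjugate. -/
lemma exists_root_of_self {c : Γ} {l : ℕ} (h : IsConj c (c ^ l)) (m : ℕ) :
    ∃ y : Γ, IsConj c y ∧ y ^ l ^ m = c := by
  induction m with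
  | zero => exact ⟨c, IsConj.refl c, by rw [pow_zero, pow_one]⟩
  | succ m ih =>
    obtain ⟨y, hy, hym⟩ := ih
    have h1 : IsConj (c ^ l) y := h.symm.trans hy
    obtain ⟨g, hg⟩ := isConj_iff.mp h1
    refine ⟨g * c * g⁻¹, isConj_iff.mpr ⟨g, rfl⟩, ?_⟩
    rw [pow_succ', pow_mul, conj_pow, hg, hym]

lemma eq_zero_of_forall_pow_dvd {l : ℕ} (hl : 2 ≤ l) {x : ℤ} (h : ∀ m : ℕ, ((l ^ m : ℕ) : ℤ) ∣ x) :
    x = 0 := by
  refine Int.eq_zero_of_abs_lt_dvd (h x.natAbs) ?_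
  rw [Int.abs_eq_natAbs]
  exact_mod_cast Nat.lt_pow_self hl

lemma noSelf_of_detected {c : Γ} (hc : Detected c) : NoSelf c := by
  obtain ⟨δ, hδ, hne⟩ := hc
  intro s hs hself
  apply hne
  refine eq_zero_of_forall_pow_dvd (l := 2 ^ s) (Nat.le_self_pow hs.ne' 2) fun m => ?_
  obtain ⟨y, -, hy⟩ := exists_root_of_self hself m
  have h1 := class_cocycle_pow hδ (IsConj.refl c) (y := y) (by
    rw [← hy]
    group) ((2 ^ s) ^ m)
  rw [hy] at h1
  exact ⟨δ y c, h1⟩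

lemma noSelf_of_mixed {k : ℕ} {b : Γ → List Γ → ℤ} (hb : IsMixed k b) (hk : 0 < k) {c : Γ}
    (hD : b c [] ≠ 0) : NoSelf c := by
  intro s hs hself
  have hG : GG k 0 ≠ 0 := by
    unfold GG
    refine mul_ne_zero (pow_ne_zero _ (by norm_num)) (Finset.prod_ne_zero_iff.2 fun j _ => ?_)
    omega
  refine mul_ne_zero two_ne_zero (mul_ne_zero hG hD) ?_
  refine eq_zero_of_forall_pow_dvd (l := 2 ^ s) (Nat.le_self_pow hs.ne' 2) fun m => ?_
  obtain ⟨y, -, hy⟩ := exists_root_of_self hself m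
  have h1 := Pool.Agent.Lib.MP_8f66f0_al_Stab.nil_dvd hb hk y ((2 ^ s) ^ m)
    (pow_pos (pow_pos two_pos s) m)
  rwa [hy] at h1

/-- In a virtually residually finite-`q` group. -/
lemma not_self_of_vrfq {q : ℕ} [hq : Fact q.Prime] (h : VirtuallyResiduallyFiniteQ q Γ) {c : Γ}
    (hc : ∀ n : ℕ, 0 < n → c ^ n ≠ 1) {s : ℕ} (hs : 0 < s) : ¬ IsConj c (c ^ q ^ s) := by
  obtain ⟨H, hHn, hHf, hr⟩ := h.normal
  have he : 0 < H.index := Nat.pos_of_ne_zero hHf.index_ne_zero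
  intro hconj
  set v := c ^ H.index with hv
  have hself : IsConj v (v ^ q ^ s) := by
    rw [hv, ← pow_mul, mul_comm, pow_mul]
    exact hconj.pow _
  have hvH : v ∈ H := H.pow_index_mem c
  obtain ⟨N, hN, ⟨k, hk⟩, hgN⟩ := hr ⟨v, hvH⟩ (by
    intro h1
    exact hc _ he (congrArg Subtype.val h1))
  apply hgN
  have : N.FiniteIndex := ⟨by rw [hk]; exact pow_ne_zero _ hq.out.ne_zero⟩
  obtain ⟨y, hy, hyk⟩ := exists_root_of_self hself k
  obtain ⟨g, hg⟩ := isConj_iff.mp hy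
  have hyH : y ∈ H := by
    rw [← hg]
    exact hHn.conj_mem v hvH g
  have h1 : (⟨y, hyH⟩ : H) ^ q ^ k ∈ N := by
    have := N.pow_index_mem (⟨y, hyH⟩ : H)
    rwa [hk] at this
  have h2 : (⟨v, hvH⟩ : H) = ((⟨y, hyH⟩ : H) ^ q ^ k) ^ (q ^ k) ^ (s - 1) := by
    apply Subtype.ext
    push_cast
    rw [← pow_mul, ← pow_succ', Nat.sub_add_cancel hs, ← pow_mul, mul_comm k s, pow_mul]
    exact hyk.symm
  rw [h2]
  exact N.pow_mem h1 _

/-- Elements of infinite order in some representation over a domain in which `2` is not a unit. -/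
lemma noSelf_of_rep [Group.FG Γ] {R : Type*} [CommRing R] [IsDomain R] [CharZero R]
    (hpR : ¬ IsUnit ((2 : ℕ) : R)) {m : ℕ} (ρ : Γ →* Matrix.GeneralLinearGroup (Fin m) R) {c : Γ}
    (hc : ∀ n : ℕ, 0 < n → ρ c ^ n ≠ 1) : NoSelf c := by
  classical
  set N := ρ.range with hNdef
  set φ : Γ →* N := ρ.rangeRestrict with hφ
  have hFG : Group.FG N := Group.fg_range ρ
  obtain ⟨R', ρ', hft, hinj, hpR'⟩ := exists_fg_domain hpR N.subtype (Subgroup.subtype_injective N)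
  have hnoeth : IsNoetherianRing R' := Algebra.FiniteType.isNoetherianRing ℤ R'
  have : Fact (Nat.Prime 2) := ⟨Nat.prime_two⟩
  obtain ⟨I, hI, hpI⟩ := exists_max_ideal_of_mem_nonunits
    (hpR' : ((2 : ℕ) : R') ∈ nonunits R')
  have hftI : Algebra.FiniteType ℤ (R' ⧸ I) :=
    Algebra.FiniteType.of_surjective (Ideal.Quotient.mkₐ ℤ I) (Ideal.Quotient.mkₐ_surjective ℤ I)
  let _ : Field (R' ⧸ I) := Ideal.Quotient.field I
  have hft1 : @Algebra.FiniteType ℤ (R' ⧸ I) _ _ (Ring.toIntAlgebra _) := by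
    convert! hftI
  obtain ⟨hfin, _⟩ := finite_field_of_finiteType (R' ⧸ I)
  have hv := virtuallyResiduallyFiniteQ_of_linear ρ' hinj Nat.prime_two I hI.ne_top hpI
  intro s hs hself
  refine not_self_of_vrfq hv (c := φ c) ?_ hs ?_
  · intro n hn h
    apply hc n hn
    have := congrArg Subtype.val h
    rwa [Subgroup.coe_pow, Subgroup.coe_one] at this
  · have := φ.map_isConj hself
    rwa [map_pow] at this

lemma noSelf_of_pdet.{v, u} {Γ : Type u} [Group Γ] [Group.FG Γ] {c : Γ} (hc : PDet.{v} 2 c) :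
    NoSelf c := by
  rcases hc with h | ⟨R, _, _, _, m, ρ, hpR, hord⟩
  · exact noSelf_of_detected h
  · exact noSelf_of_rep hpR ρ hord

end Pool.Agent.Lib.MP_8f66f0_al_Cong
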