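import Mathlib
import Pool.Agent.Lib.MP_8f66f0_al_Cong.CGood
import Pool.Agent.Lib.MP_8f66f0_al_Cong.GroupRing

/-! Powers of a matrix congruent to one, and its class sums. -/

set_option autoImplicit false
set_option linter.unusedSectionVars false

namespace Pool.Agent.Lib.MP_8f66f0_al_Cong

open Pool.Agent.Lib.MP_8f66f0_al_FinQ Pool.Agent.Cong

section pow

variable {R : Type*} [Ring R]

/-- The binomial formula for a prime exponent. -/
lemma one_add_pow_prime {p : ℕ} (hp : p.Prime) (y : R) :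
    ∃ w : R, (y + 1) ^ p = 1 + p • y + p • (y * y * w) + y ^ p := by
  obtain ⟨q, rfl⟩ : ∃ q, p = q + 2 := ⟨p - 2, by have := hp.two_le; omega⟩
  refine ⟨∑ k ∈ Finset.range q, ((q + 2).choose (k + 2) / (q + 2)) • y ^ k, ?_⟩
  rw [(Commute.one_right y).add_pow, Finset.sum_range_succ, Finset.sum_range_succ',
    Finset.sum_range_succ', Finset.mul_sum, Finset.smul_sum]
  have h1 : ∀ k ∈ Finset.range q, y ^ (k + 1 + 1) * 1 ^ (q + 2 - (k + 1 + 1)) *
      (((q + 2).choose (k + 1 + 1) : ℕ) : R) =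
      (q + 2) • (y * y * (((q + 2).choose (k + 2) / (q + 2)) • y ^ k)) := by
    intro k hk
    rw [Finset.mem_range] at hk
    have h2 : (q + 2) ∣ (q + 2).choose (k + 2) :=
      hp.dvd_choose_self (by omega) (by omega)
    obtain ⟨d, hd⟩ := h2
    rw [show k + 1 + 1 = k + 2 from rfl, hd, Nat.mul_div_cancel_left d (by omega), one_pow, mul_one,
      mul_smul_comm, smul_smul, ← pow_two, ← pow_add, add_comm 2 k, nsmul_eq_mul,
      (Nat.cast_commute _ _).eq]
  rw [Finset.sum_congr rfl h1]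
  simp only [zero_add, pow_one, one_pow, mul_one, Nat.choose_one_right, pow_zero,
    Nat.choose_zero_right, Nat.cast_one, Nat.choose_self, Nat.sub_self]
  rw [← nsmul_eq_mul', add_comm _ ((q + 2) • y), add_assoc _ _ (1 : R), add_comm _ (1 : R)]
  abel

/-- The `p`-th power of an element congruent to one. -/
lemma pow_prime_step {p Q : ℕ} (hp : p.Prime) (hpQ : p ∣ Q) (h4 : p = 2 → 4 ∣ Q) (Y : R) :
    ∃ W : R, (1 + Q • Y) ^ p = 1 + (p * Q) • (Y + p • W) := by
  obtain ⟨w, hw⟩ := one_add_pow_prime hp (Q • Y)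
  obtain ⟨q, rfl⟩ := hpQ
  have h2 : ∃ s, (p * q) ^ p = (p * (p * q)) * (p * s) := by
    rcases hp.eq_two_or_odd' with h | h
    · obtain ⟨t, ht⟩ := h4 h
      subst h
      refine ⟨t, ?_⟩
      rw [ht]
      ring
    · have h3 : 3 ≤ p := by
        rcases h with ⟨t, ht⟩
        have := hp.two_le
        omega
      obtain ⟨t, rfl⟩ : ∃ t, p = t + 3 := ⟨p - 3, by omega⟩
      refine ⟨(t + 3) ^ t * q ^ (t + 2), ?_⟩
      rw [mul_pow, pow_succ, pow_succ, pow_succ, pow_succ q]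
      ring
  obtain ⟨s, hs⟩ := h2
  refine ⟨q • (Y * Y * w) + s • Y ^ p, ?_⟩
  rw [add_comm (1 : R), hw]
  have e1 : p • ((p * q) • Y * (p * q) • Y * w) =
      (p * (p * q)) • (p • (q • (Y * Y * w))) := by
    simp only [smul_mul_assoc, mul_smul_comm, smul_smul]
    congr 1
    ring
  have e2 : ((p * q) • Y) ^ p = (p * (p * q)) • (p • (s • Y ^ p)) := by
    rw [smul_pow, hs, smul_smul, smul_smul]
    congr 1
    ring
  rw [e1, e2, smul_add p, smul_add (p * (p * q)), smul_add (p * (p * q)), smul_smul p (p * q) Y]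
  abel

/-- The powers of an element congruent to one. -/
lemma exists_pow_seq {p M : ℕ} (hp : p.Prime) (hpM : p ∣ M) (h4 : p = 2 → 4 ∣ M) (A Y : R)
    (hA : A = 1 + M • Y) : ∃ Z : ℕ → R, (∀ r, A ^ (p ^ r) = 1 + (p ^ r * M) • Z r) ∧
      ∀ r, ∃ W, Z r = Y + p • W := by
  have hstep : ∀ (r : ℕ) (V : R), ∃ W : R, (1 + (p ^ r * M) • V) ^ p =
      1 + (p ^ (r + 1) * M) • (V + p • W) := by
    intro r V
    obtain ⟨W, hW⟩ := pow_prime_step hp (Dvd.dvd.mul_left hpM (p ^ r))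
      (fun h => Dvd.dvd.mul_left (h4 h) (p ^ r)) V
    refine ⟨W, ?_⟩
    rw [hW, pow_succ' p r, mul_assoc]
  choose f hf using hstep
  let Z : ℕ → R := fun r => Nat.rec Y (fun r V => V + p • f r V) r
  have hZs : ∀ r, Z (r + 1) = Z r + p • f r (Z r) := fun r => rfl
  refine ⟨Z, fun r => ?_, fun r => ?_⟩
  · induction r with
    | zero => rw [pow_zero, pow_one, one_mul]; exact hA
    | succ r ih => rw [pow_succ p r, pow_mul, ih, hf, hZs, pow_succ p r]
  · induction r with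
    | zero => exact ⟨0, by rw [smul_zero, add_zero]; rfl⟩
    | succ r ih =>
      obtain ⟨W, hW⟩ := ih
      refine ⟨W + f r (Z r), ?_⟩
      rw [hZs]
      nth_rewrite 1 [hW]
      rw [smul_add, add_assoc]

end pow

variable {Γ : Type*} [Group Γ] {n : ℕ}

lemma classSum_eq_lin (c : Γ) (x : MonoidAlgebra ℤ Γ) : classSum c x = lin (ind ℤ c) x := by
  classical
  induction x using MonoidAlgebra.induction_linear with
  | zero => rw [map_zero, map_zero]
  | add x y hx hy => rw [map_add, map_add, hx, hy]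
  | single g a =>
    rw [classSum_single, MP_8f66f0_al_FinQ.lin_single]
    unfold ind
    split_ifs
    · rw [mul_one]
    · rw [mul_zero]

/-- The class sums of `Y` are divisible by `p` at the good classes. -/
theorem dvd_classSum_of_cgood {p M : ℕ} (hp : p.Prime) (hpM : p ∣ M) (hM : 0 < M)
    (h4 : p = 2 → 4 ∣ M)
    {A Y : Matrix (Fin n) (Fin n) (MonoidAlgebra ℤ Γ)} (hA : A = 1 + M • Y) {c : Γ}
    (hc : CGood p A c) : (p : ℤ) ∣ classSum c Y.trace := by
  obtain ⟨Z, hZ, hZ'⟩ := exists_pow_seq hp hpM h4 A Y hA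
  obtain ⟨M1, hM1⟩ := hpM
  have hM10 : M1 ≠ 0 := by
    rintro rfl
    omega
  obtain ⟨a, m, hm, ham⟩ := Nat.exists_eq_pow_mul_and_not_dvd hM10 p hp.ne_one
  have h1 := hc p (fun r => M1 • Z (r + 1)) hp.pos (by
    intro r
    rw [← pow_succ', hZ (r + 1), smul_smul]
    congr 2
    rw [hM1]
    ring) a
  rw [map_nsmul, ham, nsmul_eq_mul, Nat.cast_mul, Nat.cast_pow, pow_succ, mul_assoc] at h1
  have h2 : (p : ℤ) ∣ (m : ℤ) * MP_8f66f0_al_FinQ.mtr (lin (ind ℤ c)) (Z (a + 1)) :=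
    Int.dvd_of_mul_dvd_mul_left (pow_ne_zero _ (Nat.cast_ne_zero.mpr hp.ne_zero)) h1
  have h3 : (p : ℤ) ∣ MP_8f66f0_al_FinQ.mtr (lin (ind ℤ c)) (Z (a + 1)) := by
    refine ((Nat.prime_iff_prime_int.mp hp).dvd_or_dvd h2).resolve_left fun h => hm ?_
    exact_mod_cast h
  obtain ⟨W, hW⟩ := hZ' (a + 1)
  rw [hW, map_add, map_nsmul, nsmul_eq_mul] at h3
  have h4 := (dvd_add_left (dvd_mul_right (p : ℤ) _)).mp h3
  rw [classSum_eq_lin]
  exact h4

end Pool.Agent.Lib.MP_8f66f0_al_Cong
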