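import Mathlib
import Pool.Agent.Lib.MP_8f66f0_al_Cong.Aug

/-! Trivial units: the congruence theorem for matrices which are trivial modulo `N`. -/

set_option autoImplicit false
set_option linter.unusedSectionVars false

namespace Pool.Agent.Lib.MP_8f66f0_al_Cong

open Pool.Agent.Cong

variable {Γ : Type*} [Group Γ] {n : ℕ}

/-- The diagonal matrix with the entry `x` at the place `i` and `1` at the other places. -/
noncomputable def dg (i : Fin n) (x : MonoidAlgebra ℤ Γ) :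
    Matrix (Fin n) (Fin n) (MonoidAlgebra ℤ Γ) :=
  Matrix.diagonal (Function.update 1 i x)

lemma dg_mul (i : Fin n) (x y : MonoidAlgebra ℤ Γ) : dg i x * dg i y = dg i (x * y) := by
  unfold dg
  rw [Matrix.diagonal_mul_diagonal]
  congr 1
  funext j
  by_cases h : j = i
  · subst h
    simp
  · simp [Function.update_of_ne h]

lemma dg_one (i : Fin n) : dg i (1 : MonoidAlgebra ℤ Γ) = 1 := by
  unfold dg
  rw [← Matrix.diagonal_one]
  congr 1
  funext j
  by_cases h : j = i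
  · subst h
    simp
  · simp [Function.update_of_ne h]

lemma dg_add (i : Fin n) (x y : MonoidAlgebra ℤ Γ) (N : ℕ) :
    dg i (x + N • y) = dg i x + N • Matrix.single i i y := by
  ext a b : 1
  unfold dg
  rw [Matrix.add_apply, Matrix.smul_apply, Matrix.diagonal_apply, Matrix.diagonal_apply]
  by_cases hab : a = b
  · subst hab
    by_cases h : a = i
    · subst h
      simp
    · rw [if_pos rfl, if_pos rfl, Function.update_of_ne h, Function.update_of_ne h,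
        Matrix.single_apply_of_row_ne (Ne.symm h), smul_zero, add_zero]
  · rw [if_neg hab, if_neg hab, Matrix.single_apply_of_ne, smul_zero, add_zero]
    rintro ⟨rfl, rfl⟩
    exact hab rfl

lemma det_aug_dg (i : Fin n) (g : Γ) (u : ℤ) :
    ((aug Γ).mapMatrix (dg i (MonoidAlgebra.single g u))).det = u := by
  unfold dg
  rw [RingHom.mapMatrix_apply, Matrix.diagonal_map (map_zero _), Matrix.det_diagonal,
    Finset.prod_eq_single i]
  · simp [aug_single]
  · intro j _ hj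
    simp [Function.update_of_ne hj]
  · intro h
    exact absurd (Finset.mem_univ i) h

lemma det_aug_elem {E : (Matrix (Fin n) (Fin n) (MonoidAlgebra ℤ Γ))ˣ}
    (hE : E ∈ elemGroup (Fin n) (MonoidAlgebra ℤ Γ)) :
    ((aug Γ).mapMatrix (E : Matrix (Fin n) (Fin n) (MonoidAlgebra ℤ Γ))).det = 1 := by
  unfold elemGroup at hE
  induction hE using Subgroup.closure_induction with
  | mem E hE =>
    obtain ⟨i, j, r, hij, hE⟩ := hE
    rw [hE, map_add, map_one]
    have h1 : (aug Γ).mapMatrix (Matrix.single i j r) = Matrix.single i j (aug Γ r) := by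
      rw [RingHom.mapMatrix_apply]
      exact Matrix.map_single i j r (aug Γ)
    rw [h1]
    exact Matrix.det_transvection_of_ne i j hij (aug Γ r)
  | one => rw [Units.val_one, map_one, Matrix.det_one]
  | mul x y _ _ hx hy => rw [Units.val_mul, map_mul, Matrix.det_mul, hx, hy, mul_one]
  | inv x _ hx =>
    have h1 : (x : Matrix (Fin n) (Fin n) (MonoidAlgebra ℤ Γ)) *
      ((x⁻¹ : (Matrix (Fin n) (Fin n) (MonoidAlgebra ℤ Γ))ˣ) :
        Matrix (Fin n) (Fin n) (MonoidAlgebra ℤ Γ)) = 1 := by simp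
    have h2 := congrArg (fun X => ((aug Γ).mapMatrix X).det) h1
    simp only [map_mul, Matrix.det_mul, map_one, Matrix.det_one] at h2
    rwa [hx, one_mul] at h2

/-- The congruence statement for matrices whose augmentation has determinant one. -/
def CongFor (N n : ℕ) (Γ : Type*) [Group Γ] : Prop :=
  ∀ (A : (Matrix (Fin n) (Fin n) (MonoidAlgebra ℤ Γ))ˣ)
    (Y : Matrix (Fin n) (Fin n) (MonoidAlgebra ℤ Γ)),
    (A : Matrix (Fin n) (Fin n) (MonoidAlgebra ℤ Γ)) = 1 + N • Y →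
    ((aug Γ).mapMatrix (A : Matrix (Fin n) (Fin n) (MonoidAlgebra ℤ Γ))).det = 1 →
    ∀ k : ℕ, ∃ E ∈ elemGroup (Fin n) (MonoidAlgebra ℤ Γ),
      ∃ Z : Matrix (Fin n) (Fin n) (MonoidAlgebra ℤ Γ),
        ((E * A : (Matrix (Fin n) (Fin n) (MonoidAlgebra ℤ Γ))ˣ) :
          Matrix (Fin n) (Fin n) (MonoidAlgebra ℤ Γ)) = 1 + (N ^ k) • Z

/-- **The congruence theorem, with trivial units.** -/
theorem cong_units {N : ℕ} (h : CongFor N n Γ) (i : Fin n)
    (A : (Matrix (Fin n) (Fin n) (MonoidAlgebra ℤ Γ))ˣ)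
    (E₀ : (Matrix (Fin n) (Fin n) (MonoidAlgebra ℤ Γ))ˣ)
    (hE₀ : E₀ ∈ elemGroup (Fin n) (MonoidAlgebra ℤ Γ)) (g : Γ) (u : ℤ)
    (Z₀ : Matrix (Fin n) (Fin n) (MonoidAlgebra ℤ Γ))
    (hA : (A : Matrix (Fin n) (Fin n) (MonoidAlgebra ℤ Γ)) =
      E₀ * dg i (MonoidAlgebra.single g u) + N • Z₀) :
    ∃ ε : ℤ, (ε = 1 ∨ ε = -1) ∧ (N : ℤ) ∣ u - ε ∧ ∀ k : ℕ,
      ∃ E ∈ elemGroup (Fin n) (MonoidAlgebra ℤ Γ),
        ∃ Z : Matrix (Fin n) (Fin n) (MonoidAlgebra ℤ Γ),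
          (A : Matrix (Fin n) (Fin n) (MonoidAlgebra ℤ Γ)) =
            E * dg i (MonoidAlgebra.single g ε) + (N ^ k) • Z := by
  set φ : Matrix (Fin n) (Fin n) (MonoidAlgebra ℤ Γ) →+* Matrix (Fin n) (Fin n) ℤ :=
    (aug Γ).mapMatrix with hφ
  -- the determinant of the augmentation
  have hu : IsUnit (φ A).det := by
    rw [← Matrix.isUnit_iff_isUnit_det]
    exact (A.isUnit).map φ
  set ε : ℤ := (φ A).det with hε
  have hε2 : ε = 1 ∨ ε = -1 := Int.isUnit_iff.mp hu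
  have hεε : ε * ε = 1 := by rcases hε2 with h | h <;> rw [h] <;> norm_num
  have hmod : (N : ℤ) ∣ u - ε := by
    have h1 : φ A = φ (E₀ * dg i (MonoidAlgebra.single g u)) + (N : ℤ) • φ Z₀ := by
      rw [hA, map_add, map_nsmul]
      congr 1
    have h2 : (φ (E₀ * dg i (MonoidAlgebra.single g u))).det = u := by
      rw [map_mul, Matrix.det_mul, hφ, det_aug_elem hE₀, det_aug_dg, one_mul]
    rw [← Int.modEq_iff_dvd, ← ZMod.intCast_eq_intCast_iff]
    have h3 : ∀ X : Matrix (Fin n) (Fin n) ℤ, ((X.det : ℤ) : ZMod N) =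
        ((Int.castRingHom (ZMod N)).mapMatrix X).det := fun X => by
      rw [← RingHom.map_det]
      rfl
    have h4 : (Int.castRingHom (ZMod N)).mapMatrix ((N : ℤ) • φ Z₀) = 0 := by
      ext a b
      rw [RingHom.mapMatrix_apply, Matrix.map_apply, Matrix.smul_apply, smul_eq_mul, map_mul,
        Matrix.zero_apply]
      simp
    rw [hε, h1, h3, map_add, h4, add_zero, ← h3, h2]
  -- the trivial unit
  have hDD : dg i (MonoidAlgebra.single g ε) * dg i (MonoidAlgebra.single g⁻¹ ε) = 1 := by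
    rw [dg_mul, MonoidAlgebra.single_mul_single, mul_inv_cancel, hεε, ← MonoidAlgebra.one_def,
      dg_one]
  have hDD' : dg i (MonoidAlgebra.single g⁻¹ ε) * dg i (MonoidAlgebra.single g ε) = 1 := by
    rw [dg_mul, MonoidAlgebra.single_mul_single, inv_mul_cancel, hεε, ← MonoidAlgebra.one_def,
      dg_one]
  set D : (Matrix (Fin n) (Fin n) (MonoidAlgebra ℤ Γ))ˣ := ⟨_, _, hDD, hDD'⟩ with hD
  obtain ⟨t, ht⟩ := hmod
  have hdg : dg i (MonoidAlgebra.single g u) * dg i (MonoidAlgebra.single g⁻¹ ε) =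
      1 + N • Matrix.single i i (MonoidAlgebra.single 1 (t * ε)) := by
    rw [dg_mul, MonoidAlgebra.single_mul_single, mul_inv_cancel]
    have e : u * ε = 1 + N • (t * ε) := by
      rw [nsmul_eq_mul]
      linear_combination ε * ht + hεε
    rw [e, MonoidAlgebra.single_add, ← MonoidAlgebra.one_def, ← MonoidAlgebra.smul_single, dg_add,
      dg_one]
  have hE₀' : ((E₀⁻¹ : (Matrix (Fin n) (Fin n) (MonoidAlgebra ℤ Γ))ˣ) :
      Matrix (Fin n) (Fin n) (MonoidAlgebra ℤ Γ)) * E₀ = 1 := by simp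
  set Y : Matrix (Fin n) (Fin n) (MonoidAlgebra ℤ Γ) :=
    Matrix.single i i (MonoidAlgebra.single 1 (t * ε)) +
      ((E₀⁻¹ : (Matrix (Fin n) (Fin n) (MonoidAlgebra ℤ Γ))ˣ) :
      Matrix (Fin n) (Fin n) (MonoidAlgebra ℤ Γ)) * Z₀ * dg i (MonoidAlgebra.single g⁻¹ ε) with hY
  have hAY : ((E₀⁻¹ * A * D⁻¹ : (Matrix (Fin n) (Fin n) (MonoidAlgebra ℤ Γ))ˣ) :
      Matrix (Fin n) (Fin n) (MonoidAlgebra ℤ Γ)) = 1 + N • Y := by
    rw [Units.val_mul, Units.val_mul, hA]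
    change _ * dg i (MonoidAlgebra.single g⁻¹ ε) = _
    rw [mul_add, add_mul, ← mul_assoc, hE₀', one_mul, hdg, hY, smul_add, add_assoc]
    congr 2
    rw [mul_smul_comm, smul_mul_assoc]
  have hdet : (φ ((E₀⁻¹ * A * D⁻¹ : (Matrix (Fin n) (Fin n) (MonoidAlgebra ℤ Γ))ˣ) :
      Matrix (Fin n) (Fin n) (MonoidAlgebra ℤ Γ))).det = 1 := by
    have h5 : (φ ((D⁻¹ : (Matrix (Fin n) (Fin n) (MonoidAlgebra ℤ Γ))ˣ) :
      Matrix (Fin n) (Fin n) (MonoidAlgebra ℤ Γ))).det = ε := det_aug_dg i g⁻¹ ε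
    rw [Units.val_mul, Units.val_mul, map_mul, map_mul, Matrix.det_mul, Matrix.det_mul, h5, hφ,
      det_aug_elem ((elemGroup (Fin n) (MonoidAlgebra ℤ Γ)).inv_mem hE₀), one_mul]
    exact hεε
  refine ⟨ε, hε2, ⟨t, ht⟩, fun k => ?_⟩
  obtain ⟨E, hE, Z, hZ⟩ := h _ Y hAY hdet k
  refine ⟨E₀ * E⁻¹, (elemGroup (Fin n) (MonoidAlgebra ℤ Γ)).mul_mem hE₀
    ((elemGroup (Fin n) (MonoidAlgebra ℤ Γ)).inv_mem hE),
    ((E₀ * E⁻¹ : (Matrix (Fin n) (Fin n) (MonoidAlgebra ℤ Γ))ˣ) :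
      Matrix (Fin n) (Fin n) (MonoidAlgebra ℤ Γ)) * Z * dg i (MonoidAlgebra.single g ε), ?_⟩
  have h1 : A = (E₀ * E⁻¹) * (E * (E₀⁻¹ * A * D⁻¹)) * D := by group
  have h2 : (A : Matrix (Fin n) (Fin n) (MonoidAlgebra ℤ Γ)) =
      ((E₀ * E⁻¹ : (Matrix (Fin n) (Fin n) (MonoidAlgebra ℤ Γ))ˣ) :
      Matrix (Fin n) (Fin n) (MonoidAlgebra ℤ Γ)) * (1 + (N ^ k) • Z) *
        dg i (MonoidAlgebra.single g ε) := by
    rw [← hZ]
    conv_lhs => rw [h1]
    rw [Units.val_mul, Units.val_mul]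
  rw [h2, mul_add, mul_one, add_mul, mul_smul_comm, smul_mul_assoc]

end Pool.Agent.Lib.MP_8f66f0_al_Cong
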