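import Mathlib
import Pool.Agent.Lib.MP_8f66f0_al_Cong.Local
import Pool.Agent.Lib.MP_8f66f0_al_Cong.MixStep
import Pool.Agent.Lib.MP_8f66f0_al_Cong.PGood
import Pool.Agent.Lib.MP_8f66f0_al_Cong.Self
import Pool.Agent.Lib.MP_8f66f0_al_Cong.Step1
import Pool.Agent.Lib.MP_8f66f0_al_Cong.UnitsC

/-! The congruence theorem for all numbers `N ≥ 2`. -/

set_option autoImplicit false
set_option linter.unusedSectionVars false

namespace Pool.Agent.Lib.MP_8f66f0_al_Cong

open Pool.Agent.Cong Pool.Agent.Lib.MP_8f66f0_al_Uni Pool.Agent.Lib.MP_8f66f0_al_Mixed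

/-- The class sum conditions for all numbers with the prime divisors of `N`. -/
def LocGood (N n : ℕ) (Γ : Type*) [Group Γ] : Prop :=
  (∀ N' : ℕ, (Odd N' ∨ 4 ∣ N') → (∀ p : ℕ, p.Prime → p ∣ N' → p ∣ N) → SumsDvd N' n Γ) ∧
    (2 ∣ N → ∀ c : Γ, c ≠ 1 → NoSelf c)

section two

variable {Γ : Type*} [Group Γ] {n : ℕ}

/-- The first step for `N = 2 m`, `m` odd. -/
theorem two_classes {m : ℕ} (hm : Odd m) (h : LocGood (2 * m) n Γ)
    (A B Y : Matrix (Fin n) (Fin n) (MonoidAlgebra ℤ Γ)) (hAB : A * B = 1) (hBA : B * A = 1)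
    (hA : A = 1 + (2 * m) • Y) : ∀ c : Γ, c ≠ 1 → (2 : ℤ) ∣ classSum c Y.trace := by
  have hm0 : 0 < m := hm.pos
  have h4 : A * A = 1 + (4 * m) • (Y + m • (Y * Y)) := by
    rw [hA, add_mul, mul_add, mul_add, one_mul, one_mul, mul_one, smul_mul_smul_comm]
    module
  have hsum := h.1 (4 * m) (Or.inr (dvd_mul_right 4 m)) (by
    intro p hp hpd
    rcases (hp.dvd_mul).mp hpd with h5 | h5
    · have : p ∣ 2 ^ 2 := by norm_num; exact h5
      exact (hp.dvd_of_dvd_pow this).mul_right m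
    · exact h5.mul_left 2)
  refine even_of_sq (h.2 (dvd_mul_right 2 m)) _ fun c hc => ?_
  have h5 := hsum 2 (4 * m) Nat.prime_two (Dvd.intro (2 * m) (by ring)) dvd_rfl (by omega)
    (A * A) (B * B) (Y + m • (Y * Y))
    (by rw [mul_assoc, ← mul_assoc A B B, hAB, one_mul, hAB])
    (by rw [mul_assoc, ← mul_assoc B A A, hBA, one_mul, hBA]) h4 c hc
  rw [Matrix.trace_add, Matrix.trace_smul, map_add, map_nsmul, nsmul_eq_mul] at h5
  have h6 := classSum_trace_sq c Y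
  obtain ⟨t, rfl⟩ := hm
  push_cast at h5
  obtain ⟨x, hx⟩ := h5
  obtain ⟨y, hy⟩ := h6
  exact ⟨x - y - t * classSum c (Y * Y).trace, by linear_combination hx - hy⟩

/-- The augmentation of the trace of `Y`, if the augmentation of `1 + M Y` has determinant one. -/
theorem dvd_aug_trace' {p M : ℕ} (hpM : p ∣ M) (hM : 0 < M)
    (Y : Matrix (Fin n) (Fin n) (MonoidAlgebra ℤ Γ))
    (hdet : ((aug Γ).mapMatrix (1 + M • Y)).det = 1) : (p : ℤ) ∣ aug Γ Y.trace := by
  set φ : Matrix (Fin n) (Fin n) (MonoidAlgebra ℤ Γ) →+* Matrix (Fin n) (Fin n) ℤ :=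
    (aug Γ).mapMatrix with hφ
  have h1 : φ (1 + M • Y) = 1 + M • φ Y := by rw [map_add, map_one, map_nsmul]
  obtain ⟨c, hc⟩ := MP_8f66f0_al_FinQ.det_one_add_nsmul M (φ Y)
  have h3 : (φ Y).trace = aug Γ Y.trace := by
    rw [Matrix.trace, Matrix.trace, map_sum]
    rfl
  have hM0 : (M : ℤ) ≠ 0 := by exact_mod_cast hM.ne'
  rw [← h1, hdet] at hc
  have h5 : (φ Y).trace = (M : ℤ) * (-c) := by
    apply mul_left_cancel₀ hM0
    linear_combination -hc
  rw [← h3, h5]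
  exact Dvd.dvd.mul_right (Int.natCast_dvd_natCast.mpr hpM) _

end two

section main

variable {Γ : Type*} [Group Γ] {n : ℕ}

lemma aug_map {H : Subgroup Γ} (x : MonoidAlgebra ℤ H) :
    aug Γ (MonoidAlgebra.mapDomainRingHom ℤ H.subtype x) = aug H x := by
  induction x using MonoidAlgebra.induction_linear with
  | zero => rw [map_zero, map_zero, map_zero]
  | add x y hx hy => rw [map_add, map_add, map_add, hx, hy]
  | single g a =>
    rw [MonoidAlgebra.mapDomainRingHom_apply, MonoidAlgebra.mapDomain_single, aug_single,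
      aug_single]

/-- The first step for `N = 2 m`, `m` odd, over the whole group. -/
theorem two_local {m : ℕ} (hm : Odd m) (h : ∀ H : Subgroup Γ, H.FG → LocGood (2 * m) n H)
    (A : (Matrix (Fin n) (Fin n) (MonoidAlgebra ℤ Γ))ˣ)
    (Y : Matrix (Fin n) (Fin n) (MonoidAlgebra ℤ Γ))
    (hA : (A : Matrix (Fin n) (Fin n) (MonoidAlgebra ℤ Γ)) = 1 + (2 * m) • Y)
    (hdet : ((aug Γ).mapMatrix (A : Matrix (Fin n) (Fin n) (MonoidAlgebra ℤ Γ))).det = 1) :
    ∃ w : MonoidAlgebra ℤ Γ, Y.trace - 2 • w ∈ commGroup (MonoidAlgebra ℤ Γ) := by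
  obtain ⟨H, A', B', Y', hH, hAB', hBA', hA', hY'⟩ :=
    exists_restrict3 (A : Matrix (Fin n) (Fin n) (MonoidAlgebra ℤ Γ))
      ((A⁻¹ : (Matrix (Fin n) (Fin n) (MonoidAlgebra ℤ Γ))ˣ)) Y (by simp) (by simp) hA
  have hm0 : 0 < m := hm.pos
  have hdet' : ((aug H).mapMatrix (1 + (2 * m) • Y')).det = 1 := by
    rw [← hdet, hA, ← hY']
    congr 1
    rw [map_add, map_add, map_one, map_one, map_nsmul, map_nsmul]
    congr 2
    ext i j
    rw [RingHom.mapMatrix_apply, RingHom.mapMatrix_apply, RingHom.mapMatrix_apply,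
      Matrix.map_apply, Matrix.map_apply, Matrix.map_apply, aug_map]
  obtain ⟨w, hw⟩ := mem_comm_of_classSum (p := 2) Y'.trace (classSum_of_aug
    (dvd_aug_trace' (dvd_mul_right 2 m) (by omega) Y' hdet')
    (two_classes hm (h H hH) A' B' Y' hAB' hBA' hA'))
  refine ⟨MonoidAlgebra.mapDomainRingHom ℤ H.subtype w, ?_⟩
  have h1 := map_commGroup (MonoidAlgebra.mapDomainRingHom ℤ H.subtype) hw
  rw [map_sub, map_nsmul] at h1
  have h2 : (MonoidAlgebra.mapDomainRingHom ℤ H.subtype) Y'.trace = Y.trace := by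
    rw [← hY', Matrix.trace, Matrix.trace, map_sum]
    rfl
  rwa [h2] at h1

/-- **The congruence theorem** for all `N ≥ 2`. -/
theorem congFor_of_local {N : ℕ} (hN : 2 ≤ N) (hn : 2 ≤ n)
    (h : ∀ H : Subgroup Γ, H.FG → LocGood N n H) : CongFor N n Γ := by
  have hnt : Nontrivial (Fin n) := Fin.nontrivial_iff_two_le.mpr hn
  intro A Y hA hdet k
  by_cases hN4 : Odd N ∨ 4 ∣ N
  · have hN2 : 2 < N := by
      rcases hN4 with ⟨t, ht⟩ | ⟨t, ht⟩ <;> omega
    exact cong_of_local hN2 hn (fun H hH => (h H hH).1 N hN4 fun p _ hp => hp) A Y hA k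
  · push Not at hN4
    obtain ⟨hodd, h4⟩ := hN4
    obtain ⟨m, rfl⟩ := (Nat.not_odd_iff_even.mp hodd).two_dvd
    have hm : Odd m := by
      rw [← Nat.not_even_iff_odd]
      rintro ⟨t, rfl⟩
      exact h4 ⟨t, by ring⟩
    obtain ⟨w, hw⟩ := two_local hm h A Y hA hdet
    obtain ⟨E, hE, Z, hZ⟩ := elem_step (dvd_mul_right 2 m) A Y w hA hw
    have hm0 := hm.pos
    obtain ⟨E', hE', Z', hZ'⟩ := cong_of_local (N := 2 * (2 * m)) (by omega) hn
      (fun H hH => (h H hH).1 (2 * (2 * m)) (Or.inr ⟨m, by ring⟩) fun p hp hpd => by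
        rcases (hp.dvd_mul).mp hpd with h5 | h5
        · exact h5.mul_right m
        · exact h5) (E * A) Z hZ k
    refine ⟨E' * E, (elemGroup (Fin n) (MonoidAlgebra ℤ Γ)).mul_mem hE' hE, (2 ^ k) • Z', ?_⟩
    rw [mul_assoc, hZ', smul_smul, mul_pow 2 (2 * m), mul_comm (2 ^ k)]

end main

/-- The hypothesis on the conjugacy class of `c` in the group `H`, for the number `N`: there is an
integral mixed cocycle `b` with `b (c; []) ≠ 0` and the centralizers of `c` and `c ^ q` are equal for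
infinitely many primes `q`; or the group is power separated and for every prime `p ∣ N` the class
is detected or of infinite order in a representation over a domain of characteristic zero in which
`p` is not a unit. -/
def CongClass.{v, u} (N : ℕ) {H : Type u} [Group H] (c : H) : Prop :=
  ((∃ (k : ℕ) (b : H → List H → ℤ), IsMixed k b ∧ b c [] ≠ 0) ∧
    {q : ℕ | q.Prime ∧ ∀ x : H, x * c ^ q = c ^ q * x → x * c = c * x}.Infinite) ∨
  (PowerSep H ∧ ∀ p : ℕ, p.Prime → p ∣ N → PDet.{v} p c)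

theorem locGood_of_class.{v, u} {H : Type u} [Group H] [Group.FG H]
    (htf : ∀ g : H, ∀ m : ℕ, 0 < m → g ^ m = 1 → g = 1) {N n : ℕ}
    (h : ∀ c : H, c ≠ 1 → CongClass.{v} N c) : LocGood N n H := by
  refine ⟨fun N' hN' hp' => ?_, fun h2 c hc => ?_⟩
  · intro p M hp hpN hNM hM A B Y hAB hBA hA c hc
    have h4 : p = 2 → 4 ∣ M := by
      rintro rfl
      rcases hN' with h5 | h5
      · exact absurd hpN (by rw [← even_iff_two_dvd, Nat.not_even_iff_odd]; exact h5)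
      · exact h5.trans hNM
    rcases h c hc with ⟨⟨k, b, hb, hD⟩, hS⟩ | ⟨hsep, hdet⟩
    · exact mix_step htf hp (hpN.trans hNM) h4 hM A B hAB hBA Y hA c hc hb hD hS
    · exact dvd_classSum_of_cgood hp (hpN.trans hNM) hM h4 hA
        (cgood_of_pdet hsep hAB hBA hp (hdet p hp (hp' p hp hpN)))
  · rcases h c hc with ⟨⟨k, b, hb, hD⟩, hS⟩ | ⟨hsep, hdet⟩
    · refine noSelf_of_mixed hb ?_ hD
      rcases Nat.eq_zero_or_pos k with rfl | hk
      · exfalso
        apply hD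
        rw [← val_pair hb c]
        exact hb.len c _ (by simp)
      · exact hk
    · exact noSelf_of_pdet (hdet 2 Nat.prime_two h2)

/-- **The congruence theorem**, with trivial units. -/
theorem cong_final.{v, u} {Γ : Type u} [Group Γ]
    (htf : ∀ g : Γ, ∀ m : ℕ, 0 < m → g ^ m = 1 → g = 1) {N : ℕ} (hN : 2 ≤ N)
    (h : ∀ H : Subgroup Γ, H.FG → ∀ c : H, c ≠ 1 → CongClass.{v} N c) {n : ℕ} (hn : 2 ≤ n)
    (i : Fin n) (A E₀ : (Matrix (Fin n) (Fin n) (MonoidAlgebra ℤ Γ))ˣ)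
    (hE₀ : E₀ ∈ elemGroup (Fin n) (MonoidAlgebra ℤ Γ)) (g : Γ) (u : ℤ)
    (Z₀ : Matrix (Fin n) (Fin n) (MonoidAlgebra ℤ Γ))
    (hA : (A : Matrix (Fin n) (Fin n) (MonoidAlgebra ℤ Γ)) =
      E₀ * dg i (MonoidAlgebra.single g u) + N • Z₀) :
    ∃ ε : ℤ, (ε = 1 ∨ ε = -1) ∧ (N : ℤ) ∣ u - ε ∧ ∀ k : ℕ,
      ∃ E ∈ elemGroup (Fin n) (MonoidAlgebra ℤ Γ),
        ∃ Z : Matrix (Fin n) (Fin n) (MonoidAlgebra ℤ Γ),
          (A : Matrix (Fin n) (Fin n) (MonoidAlgebra ℤ Γ)) =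
            E * dg i (MonoidAlgebra.single g ε) + (N ^ k) • Z := by
  refine cong_units (congFor_of_local hN hn fun H hH => ?_) i A E₀ hE₀ g u Z₀ hA
  have hFG : Group.FG H := (Group.fg_iff_subgroup_fg H).mpr hH
  refine locGood_of_class (fun x m hm hx => ?_) (h H hH)
  apply Subtype.ext
  refine htf _ m hm ?_
  have := congrArg Subtype.val hx
  simpa using this

end Pool.Agent.Lib.MP_8f66f0_al_Cong
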