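import Mathlib
import Pool.Agent.Lib.MP_8f66f0_al_Cong.Full
import Pool.Agent.Lib.MP_8f66f0_al_Wreath.DetClass

/-! A class of groups, closed under subgroups, finite direct products, finite index overgroups and
directed unions, whose classes are good for the primes dividing `N`. -/

set_option autoImplicit false
set_option linter.unusedSectionVars false

namespace Pool.Agent.Lib.MP_8f66f0_al_Cong

open Pool.Agent.Lib.MP_8f66f0_al_Dennis Pool.Agent.Lib.MP_8f66f0_al_FinQ
open Pool.Agent.Lib.MP_8f66f0_al_Plus Pool.Agent.Lib.MP_8f66f0_al_Uni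
open Pool.Agent.Lib.MP_8f66f0_al_Wreath

/-- The smallest class of groups which contains

* the groups which embed in a general linear group over an integral domain `R`, such that, if the
  characteristic of `R` is zero, no prime factor of `N` is a unit of `R`,
* the holomorphs `F ⋊ Aut F` of the finitely generated groups `F` which are residually
  unitriangular over the integers (for instance of free groups of finite rank),
* the outer automorphism groups of the free groups of finite rank,
* the power separated groups `G` for which, for all primes `p ∣ N`, all elements of infinite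
  order are detected, or of infinite order in some representation over a domain of
  characteristic zero in which `p` is not a unit,

and is closed under subgroups (and isomorphic groups), finite direct products, finite index
overgroups and directed unions. -/
inductive CongGroup.{v, u} (N : ℕ) : ∀ (G : Type u) [Group G], Prop
  | lin (G : Type u) [Group G] (R : Type v) [CommRing R] [IsDomain R]
      (hR : CharZero R → ∀ p : ℕ, p.Prime → p ∣ N → ¬ IsUnit (p : R)) (m : ℕ)
      (ρ : G →* Matrix.GeneralLinearGroup (Fin m) R) (hρ : Function.Injective ρ) : CongGroup N G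
  | hol (F : Type u) [Group F] [Group.FG F] (hF : Pool.Agent.Lib.MP_8f66f0_al_Aut.ResUnip F) :
      CongGroup N (F ⋊[MonoidHom.id (MulAut F)] MulAut F)
  | out (ι : Type u) [Finite ι] :
      CongGroup N (Pool.Agent.Lib.MP_8f66f0_al_Aut.OutAut (FreeGroup ι))
  | good (G : Type u) [Group G] (hG : PowerSep G)
      (hd : ∀ p : ℕ, p.Prime → p ∣ N → ∀ c : G, (∀ n : ℕ, 0 < n → c ^ n ≠ 1) →
        PDet.{v} p c) : CongGroup N G
  | sub (G K : Type u) [Group G] [Group K] (φ : K →* G) (hφ : Function.Injective φ)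
      (hG : CongGroup N G) : CongGroup N K
  | prod (G K : Type u) [Group G] [Group K] (hG : CongGroup N G) (hK : CongGroup N K) :
      CongGroup N (G × K)
  | virt (G : Type u) [Group G] (K : Subgroup G) [K.FiniteIndex] (hK : CongGroup N K) :
      CongGroup N G
  | loc (G : Type u) [Group G] (h : ∀ H : Subgroup G, H.FG → CongGroup N H) : CongGroup N G

/-- The two conditions for a group, not for its subgroups. -/
def GoodN.{v, u} (N : ℕ) (H : Type u) [Group H] : Prop :=
  PowerSep H ∧ ∀ p : ℕ, p.Prime → p ∣ N → ∀ c : H,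
    (∀ n : ℕ, 0 < n → c ^ n ≠ 1) → PDet.{v} p c

/-- The two conditions for all finitely generated subgroups. -/
def LGoodN.{v, u} (N : ℕ) (G : Type u) [Group G] : Prop :=
  ∀ H : Subgroup G, H.FG → GoodN.{v} N H

section pull

lemma GoodN.comap.{v, u} {N : ℕ} {G K : Type u} [Group G] [Group K] {φ : K →* G}
    (hφ : Function.Injective φ) (h : GoodN.{v} N G) : GoodN.{v} N K := by
  obtain ⟨h1, hN⟩ := h
  exact ⟨PowerSep.comap hφ h1, fun p hp hd c hc =>
    PDet.comap φ (hN p hp hd (φ c) (pow_ne_one_of_injective hφ hc))⟩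

/-- For groups `H` with an injective homomorphism to `G`. -/
lemma LGoodN.goodN.{v, u} {N : ℕ} {G K : Type u} [Group G] [Group K] [Group.FG K]
    (h : LGoodN.{v} N G) {φ : K →* G} (hφ : Function.Injective φ) : GoodN.{v} N K := by
  have h1 : GoodN.{v} N φ.range := h φ.range ((Group.fg_iff_subgroup_fg _).mp (Group.fg_range φ))
  refine GoodN.comap (φ := φ.rangeRestrict) ?_ h1
  intro x y hxy
  exact hφ (congrArg Subtype.val hxy)

lemma LGoodN.self.{v, u} {N : ℕ} {G : Type u} [Group G] [Group.FG G] (h : LGoodN.{v} N G) :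
    GoodN.{v} N G :=
  h.goodN (φ := MonoidHom.id G) Function.injective_id

end pull

section closure

lemma lGoodN_of_lin.{v, u} {N : ℕ} {G : Type u} [Group G] {R : Type v} [CommRing R] [IsDomain R]
    (hR : CharZero R → ∀ p : ℕ, p.Prime → p ∣ N → ¬ IsUnit (p : R)) {m : ℕ}
    (ρ : G →* Matrix.GeneralLinearGroup (Fin m) R) (hρ : Function.Injective ρ) :
    LGoodN.{v} N G := by
  intro H hH
  have : Group.FG H := (Group.fg_iff_subgroup_fg H).mpr hH
  have hinj : Function.Injective (ρ.comp H.subtype) := hρ.comp (Subgroup.subtype_injective H)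
  -- the representation over the field of fractions
  set F := FractionRing R with hF
  set σ : H →* Matrix.GeneralLinearGroup (Fin m) F :=
    (Matrix.GeneralLinearGroup.map (algebraMap R F)).comp (ρ.comp H.subtype) with hσ
  have hmap : ∀ x : Matrix.GeneralLinearGroup (Fin m) R,
      Matrix.GeneralLinearGroup.map (algebraMap R F) x = 1 → x = 1 := by
    intro x hx
    apply Units.ext
    ext i j
    apply IsFractionRing.injective R F
    have h2 := congrArg (fun u : Matrix.GeneralLinearGroup (Fin m) F =>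
      (u : Matrix (Fin m) (Fin m) F) i j) hx
    refine h2.trans ?_
    rw [Units.val_one, Units.val_one, Matrix.one_apply, Matrix.one_apply]
    split_ifs
    · rw [map_one]
    · rw [map_zero]
  have hσinj : Function.Injective σ := by
    rw [injective_iff_map_eq_one]
    intro x hx
    exact (injective_iff_map_eq_one _).mp hinj x (hmap _ hx)
  refine ⟨powerSep_of_linear σ hσinj, fun p hp hd c hc => ?_⟩
  obtain ⟨q, hq⟩ := CharP.exists R
  rcases CharP.char_is_prime_or_zero R q with hprime | hzero
  · have : Fact q.Prime := ⟨hprime⟩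
    have hqF : CharP F q := charP_of_injective_algebraMap (IsFractionRing.injective R F) q
    refine Or.inl (detected_of_charP q σ fun n hn h1 => hc n hn ?_)
    apply hσinj
    rw [map_pow, h1, map_one]
  · subst hzero
    have hc0 : CharZero R := CharP.charP_to_charZero R
    refine Or.inr ⟨R, inferInstance, inferInstance, hc0, m, ρ.comp H.subtype, hR hc0 p hp hd, ?_⟩
    intro n hn h1
    apply hc n hn
    apply hinj
    rw [map_pow, h1, map_one]

lemma lGoodN_of_autClass.{v, u} {N : ℕ} {G : Type u} [Group G]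
    (h : Pool.Agent.Lib.MP_8f66f0_al_Aut.AutClass G) : LGoodN.{v} N G := by
  intro H _
  have hI := (Pool.Agent.Lib.MP_8f66f0_al_Aut.AutClass.sub _ _ H.subtype
    (Subgroup.subtype_injective H) h).intDetected
  refine ⟨PowerSep.of_virtuallyResiduallyFinite ?_, fun p hp _ c hc =>
    pdet_of_intDet (hI.det c hc) hp⟩
  refine Set.finite_empty.subset ?_
  rintro q ⟨hq, hq'⟩
  exact hq' (hI.vrf q hq)

lemma lGoodN_of_good.{v, u} {N : ℕ} {G : Type u} [Group G] (hG : PowerSep G)
    (hd : ∀ p : ℕ, p.Prime → p ∣ N → ∀ c : G, (∀ n : ℕ, 0 < n → c ^ n ≠ 1) → PDet.{v} p c) :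
    LGoodN.{v} N G := by
  intro H _
  exact ⟨PowerSep.comap (Subgroup.subtype_injective H) hG, fun p hp hpN c hc =>
    PDet.comap H.subtype (hd p hp hpN _ (pow_ne_one_of_injective (Subgroup.subtype_injective H) hc))⟩

lemma LGoodN.sub.{v, u} {N : ℕ} {G K : Type u} [Group G] [Group K] {φ : K →* G}
    (hφ : Function.Injective φ) (hG : LGoodN.{v} N G) : LGoodN.{v} N K := by
  intro H hH
  have : Group.FG H := (Group.fg_iff_subgroup_fg H).mpr hH
  exact hG.goodN (φ := φ.comp H.subtype) (hφ.comp (Subgroup.subtype_injective H))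

lemma LGoodN.loc.{v, u} {N : ℕ} {G : Type u} [Group G]
    (h : ∀ H : Subgroup G, H.FG → LGoodN.{v} N H) : LGoodN.{v} N G := by
  intro H hH
  have : Group.FG H := (Group.fg_iff_subgroup_fg H).mpr hH
  exact (h H hH).self

/-- Two jointly injective homomorphisms. -/
lemma GoodN.pair.{v, u} {N : ℕ} {Γ A B : Type u} [Group Γ] [Group A] [Group B] (f : Γ →* A)
    (g : Γ →* B) (hinj : ∀ x, f x = 1 → g x = 1 → x = 1) (hA : GoodN.{v} N A)
    (hB : GoodN.{v} N B) : GoodN.{v} N Γ := by
  obtain ⟨⟨⟨NA, hNA⟩, hcA⟩, hMA⟩ := hA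
  obtain ⟨⟨⟨NB, hNB⟩, hcB⟩, hMB⟩ := hB
  have hinf : ∀ c : Γ, (∀ n : ℕ, 0 < n → c ^ n ≠ 1) →
      (∀ n : ℕ, 0 < n → f c ^ n ≠ 1) ∨ (∀ n : ℕ, 0 < n → g c ^ n ≠ 1) := by
    intro c hc
    by_contra hcon
    push Not at hcon
    obtain ⟨⟨a, ha, ha1⟩, b, hb, hb1⟩ := hcon
    refine hc (a * b) (Nat.mul_pos ha hb) (hinj _ ?_ ?_)
    · rw [map_pow, pow_mul, ha1, one_pow]
    · rw [map_pow, mul_comm, pow_mul, hb1, one_pow]
  refine ⟨⟨⟨NA + NB, fun l hl hlt x y hxy => ?_⟩, fun u v hv => ?_⟩, fun p hp hpN c hc => ?_⟩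
  · have h1 : f x = f y := hNA l hl (by omega) _ _ (by rw [← map_pow, ← map_pow, hxy])
    have h2 : g x = g y := hNB l hl (by omega) _ _ (by rw [← map_pow, ← map_pow, hxy])
    rw [← mul_inv_eq_one]
    apply hinj
    · rw [map_mul, map_inv, h1, mul_inv_cancel]
    · rw [map_mul, map_inv, h2, mul_inv_cancel]
  · rcases hinf v hv with h | h
    · refine (hcA (f u) (f v) h).subset ?_
      rintro l ⟨hl, hconj⟩
      have := f.map_isConj hconj
      rw [map_pow] at this
      exact ⟨hl, this⟩
    · refine (hcB (g u) (g v) h).subset ?_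
      rintro l ⟨hl, hconj⟩
      have := g.map_isConj hconj
      rw [map_pow] at this
      exact ⟨hl, this⟩
  · rcases hinf c hc with h | h
    · exact PDet.comap f (hMA p hp hpN _ h)
    · exact PDet.comap g (hMB p hp hpN _ h)

lemma LGoodN.prod.{v, u} {N : ℕ} {G K : Type u} [Group G] [Group K] (hG : LGoodN.{v} N G)
    (hK : LGoodN.{v} N K) : LGoodN.{v} N (G × K) := by
  intro H hH
  have : Group.FG H := (Group.fg_iff_subgroup_fg H).mpr hH
  set f : H →* G := (MonoidHom.fst G K).comp H.subtype with hf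
  set g : H →* K := (MonoidHom.snd G K).comp H.subtype with hg
  have h1 : GoodN.{v} N f.range := hG _ ((Group.fg_iff_subgroup_fg _).mp (Group.fg_range f))
  have h2 : GoodN.{v} N g.range := hK _ ((Group.fg_iff_subgroup_fg _).mp (Group.fg_range g))
  refine GoodN.pair f.rangeRestrict g.rangeRestrict (fun x hx hx' => ?_) h1 h2
  apply Subtype.ext
  exact Prod.ext (congrArg Subtype.val hx) (congrArg Subtype.val hx')

lemma GoodN.virt.{v, u} {N : ℕ} {H : Type u} [Group H] (K : Subgroup H) [K.Normal]
    [K.FiniteIndex] (h : GoodN.{v} N K) : GoodN.{v} N H := by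
  classical
  obtain ⟨h1, hM⟩ := h
  have hfin : Finite (H ⧸ K) := Subgroup.finite_quotient_of_finiteIndex
  have := Fintype.ofFinite (H ⧸ K)
  exact ⟨powerSep_of_normal K h1, fun p hp hpN c hc =>
    PDet.comap (kk K) (pdet_rwp (hM p hp hpN) _ (pow_ne_one_of_injective (kk_injective K) hc))⟩

lemma LGoodN.virt.{v, u} {N : ℕ} {G : Type u} [Group G] (K : Subgroup G) [K.FiniteIndex]
    (h : LGoodN.{v} N K) : LGoodN.{v} N G := by
  intro H hH
  have hHfg : Group.FG H := (Group.fg_iff_subgroup_fg H).mpr hH
  set L : Subgroup H := (K.subgroupOf H).normalCore with hL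
  have hLfi : L.FiniteIndex := inferInstance
  have hLfg : Group.FG L := inferInstance
  have hle : ∀ x : L, ((x : H) : G) ∈ K := fun x =>
    Subgroup.mem_subgroupOf.mp (Subgroup.normalCore_le (K.subgroupOf H) x.2)
  let φ : L →* K := (H.subtype.comp L.subtype).codRestrict K hle
  have hφ : Function.Injective φ := by
    intro x y hxy
    apply Subtype.ext
    apply Subtype.ext
    exact congrArg (fun z : K => (z : G)) hxy
  exact GoodN.virt L (h.goodN hφ)

end closure

theorem CongGroup.lGoodN.{v, u} {N : ℕ} {G : Type u} [Group G] (h : CongGroup.{v} N G) :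
    LGoodN.{v} N G := by
  induction h with
  | lin G R hR m ρ hρ => exact lGoodN_of_lin hR ρ hρ
  | hol F hF => exact lGoodN_of_autClass (Pool.Agent.Lib.MP_8f66f0_al_Aut.AutClass.hol F hF)
  | out ι => exact lGoodN_of_autClass (Pool.Agent.Lib.MP_8f66f0_al_Aut.AutClass.out ι)
  | good G hG hd => exact lGoodN_of_good hG hd
  | sub G K φ hφ _ ih => exact LGoodN.sub hφ ih
  | prod G K _ _ hG hK => exact LGoodN.prod hG hK
  | virt G K _ ih => exact LGoodN.virt K ih
  | loc G _ ih => exact LGoodN.loc ih

/-- For finitely generated groups of the class `DetClass`: all `N` without small prime factors. -/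
theorem exists_bound_of_detClass.{v, u} {G : Type u} [Group G] [Group.FG G]
    (h : DetClass.{v} G) : ∃ M : ℕ, ∀ N : ℕ, (∀ p : ℕ, p.Prime → p ∣ N → M < p) →
      CongGroup.{v} N G := by
  obtain ⟨h1, M, hM⟩ := h.aeGood.self
  exact ⟨M, fun N hN => CongGroup.good G h1 fun p hp hpN c hc => hM p hp (hN p hp hpN) c hc⟩

/-- The hypothesis for all finitely generated subgroups. -/
theorem congClass_of_group.{v, u} {N : ℕ} {G : Type u} [Group G]
    (htf : ∀ g : G, ∀ n : ℕ, 0 < n → g ^ n = 1 → g = 1) (h : CongGroup.{v} N G)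
    (c : G) (hc : c ≠ 1) [Group.FG G] : CongClass.{v} N c :=
  Or.inr ⟨h.lGoodN.self.1, fun p hp hpN => h.lGoodN.self.2 p hp hpN c fun n hn h1 =>
    hc (htf c n hn h1)⟩

end Pool.Agent.Lib.MP_8f66f0_al_Cong
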