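import Mathlib
import Pool.Agent.Lib.MP_8f66f0_al_Cong.Local
import Pool.Agent.Lib.MP_8f66f0_al_Cong.PGood
import Pool.Agent.Lib.MP_8f66f0_al_Cong.Step1

/-! Power separated groups with enough cocycles or representations. -/

set_option autoImplicit false
set_option linter.unusedSectionVars false

namespace Pool.Agent.Lib.MP_8f66f0_al_Cong

open Pool.Agent.Cong Pool.Agent.Lib.MP_8f66f0_al_Uni

/-- The divisibility of the class sums at one class, for all matrices. -/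
def SumsDvdAt (N : ℕ) {Γ : Type*} [Group Γ] (c : Γ) : Prop :=
  ∀ (n p M : ℕ), p.Prime → p ∣ N → N ∣ M → 0 < M →
    ∀ (A B Y : Matrix (Fin n) (Fin n) (MonoidAlgebra ℤ Γ)), A * B = 1 → B * A = 1 →
      A = 1 + M • Y → (p : ℤ) ∣ classSum c Y.trace

theorem sumsDvd_of_at {N n : ℕ} {Γ : Type*} [Group Γ] (h : ∀ c : Γ, c ≠ 1 → SumsDvdAt N c) :
    SumsDvd N n Γ :=
  fun p M hp hpN hNM hM A B Y hAB hBA hA c hc => h c hc n p M hp hpN hNM hM A B Y hAB hBA hA

theorem sumsDvdAt_of_pdet.{v, u} {Γ : Type u} [Group Γ] [Group.FG Γ] (hsep : PowerSep Γ) {N : ℕ}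
    (hN : Odd N ∨ 4 ∣ N) {c : Γ} (hc : ∀ p : ℕ, p.Prime → p ∣ N → PDet.{v} p c) :
    SumsDvdAt N c := by
  intro n p M hp hpN hNM hM A B Y hAB hBA hA
  refine dvd_classSum_of_cgood hp (hpN.trans hNM) hM (fun h2 => ?_) hA
    (cgood_of_pdet hsep hAB hBA hp (hc p hp hpN))
  subst h2
  rcases hN with h | h
  · exact absurd hpN (by rw [← even_iff_two_dvd, Nat.not_even_iff_odd]; exact h)
  · exact h.trans hNM

end Pool.Agent.Lib.MP_8f66f0_al_Cong
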