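import Pool.Agent.Lib.MP_8f66f0_al_Cong.MixStep
import Pool.Agent.Lib.MP_8f66f0_al_Cong.PFinal

/-! Mixed cocycles of any level give the divisibility of the class sums. -/

set_option autoImplicit false
set_option linter.unusedSectionVars false

namespace Pool.Agent.Lib.MP_8f66f0_al_Cong

open Pool.Agent.Cong Pool.Agent.Lib.MP_8f66f0_al_Mixed

/-- There are a mixed cocycle of some level with `b (c; []) ≠ 0` and infinitely many primes `p`
such that the centralizer of `c ^ p` is the centralizer of `c`. -/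
def MixedDetected {Γ : Type*} [Group Γ] (c : Γ) : Prop :=
  (∃ (k : ℕ) (b : Γ → List Γ → ℤ), IsMixed k b ∧ b c [] ≠ 0) ∧
    {p : ℕ | p.Prime ∧ ∀ x : Γ, x * c ^ p = c ^ p * x → x * c = c * x}.Infinite

theorem sumsDvdAt_of_mixed {Γ : Type*} [Group Γ]
    (htf : ∀ g : Γ, ∀ m : ℕ, 0 < m → g ^ m = 1 → g = 1) {N : ℕ} (hN : Odd N ∨ 4 ∣ N) {c : Γ}
    (hc1 : c ≠ 1) (hc : MixedDetected c) : SumsDvdAt N c := by
  obtain ⟨⟨k, b, hb, hD⟩, hS⟩ := hc
  intro n p M hp hpN hNM hM A B Y hAB hBA hA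
  refine mix_step htf hp (hpN.trans hNM) (fun h2 => ?_) hM A B hAB hBA Y hA c hc1 hb hD hS
  subst h2
  rcases hN with h | h
  · exact absurd hpN (by rw [← even_iff_two_dvd, Nat.not_even_iff_odd]; exact h)
  · exact h.trans hNM

end Pool.Agent.Lib.MP_8f66f0_al_Cong
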